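import Mathlib

/-! Elements of `c_0(Γ; Z)` with a countable support form a space which embeds into
`c_0(ℕ; Z)`. -/

open scoped ZeroAtInfty
open Set Filter Topology

namespace Pool.Agent.Helper94.SR

variable {Γ : Type*} [TopologicalSpace Γ] [DiscreteTopology Γ] {Z : Type*} [NormedAddCommGroup Z]
  [NormedSpace ℝ Z]

theorem c0_norm_le (x : C₀(Γ, Z)) {r : ℝ} (hr : 0 ≤ r) : ‖x‖ ≤ r ↔ ∀ γ, ‖x γ‖ ≤ r := by
  rw [← ZeroAtInftyContinuousMap.norm_toBCF_eq_norm, BoundedContinuousFunction.norm_le hr]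
  rfl

theorem c0_apply_le (x : C₀(Γ, Z)) (γ : Γ) : ‖x γ‖ ≤ ‖x‖ :=
  (c0_norm_le x (norm_nonneg x)).1 le_rfl γ

theorem c0_finite (x : C₀(Γ, Z)) {ε : ℝ} (hε : 0 < ε) : {γ | ε ≤ ‖x γ‖}.Finite := by
  have h := x.zero_at_infty'
  rw [Filter.cocompact_eq_cofinite] at h
  have h1 := h.eventually (Metric.ball_mem_nhds (0 : Z) hε)
  rw [Filter.eventually_cofinite] at h1
  refine h1.subset fun γ hγ => ?_
  intro h2
  have h3 : ‖x γ‖ < ε := by simpa using h2
  exact absurd hγ (not_le.2 h3)

/-- An element of `c_0(Γ; Z)` from its values. -/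
def mk0 (f : Γ → Z) (h : ∀ ε : ℝ, 0 < ε → {γ | ε ≤ ‖f γ‖}.Finite) : C₀(Γ, Z) where
  toFun := f
  continuous_toFun := continuous_of_discreteTopology
  zero_at_infty' := by
    rw [Filter.cocompact_eq_cofinite, Metric.tendsto_nhds]
    intro ε hε
    rw [Filter.eventually_cofinite]
    refine (h ε hε).subset fun γ hγ => ?_
    simpa using hγ

theorem mk0_apply (f : Γ → Z) (h : ∀ ε : ℝ, 0 < ε → {γ | ε ≤ ‖f γ‖}.Finite) (γ : Γ) :
    mk0 f h γ = f γ := rfl

theorem ext_bound {S : Set Γ} {i : S → ℕ} (hi : Function.Injective i) (x : C₀(Γ, Z)) (n : ℕ) :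
    ‖Function.extend i (fun γ : S => x γ) 0 n‖ ≤ ‖x‖ := by
  by_cases h : ∃ γ, i γ = n
  · obtain ⟨γ, rfl⟩ := h
    rw [hi.extend_apply]
    exact c0_apply_le x γ
  · rw [Function.extend_apply' _ _ _ h]
    simp

/-- The embedding. -/
noncomputable def emb {S : Set Γ} (i : S → ℕ) (hi : Function.Injective i) :
    C₀(Γ, Z) →L[ℝ] C₀(ℕ, Z) :=
  LinearMap.mkContinuous
    { toFun := fun x => mk0 (Function.extend i (fun γ : S => x γ) 0) (by
        intro ε hε
        refine (((c0_finite x hε).preimage (f := fun γ : S => (γ : Γ))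
          Subtype.val_injective.injOn).image i).subset fun n hn => ?_
        by_cases h : ∃ γ, i γ = n
        · obtain ⟨γ, rfl⟩ := h
          refine ⟨γ, ?_, rfl⟩
          have h1 : ε ≤ ‖Function.extend i (fun γ : S => x γ) 0 (i γ)‖ := hn
          rw [hi.extend_apply] at h1
          exact h1
        · have h1 : ε ≤ ‖Function.extend i (fun γ : S => x γ) 0 n‖ := hn
          rw [Function.extend_apply' _ _ _ h] at h1
          simp at h1
          linarith)
      map_add' := fun x y => by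
        ext n
        rw [ZeroAtInftyContinuousMap.add_apply, mk0_apply, mk0_apply, mk0_apply]
        by_cases h : ∃ γ, i γ = n
        · obtain ⟨γ, rfl⟩ := h
          rw [hi.extend_apply, hi.extend_apply, hi.extend_apply]
          rfl
        · rw [Function.extend_apply' _ _ _ h, Function.extend_apply' _ _ _ h,
            Function.extend_apply' _ _ _ h]
          simp
      map_smul' := fun a x => by
        ext n
        rw [RingHom.id_apply, ZeroAtInftyContinuousMap.smul_apply, mk0_apply, mk0_apply]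
        by_cases h : ∃ γ, i γ = n
        · obtain ⟨γ, rfl⟩ := h
          rw [hi.extend_apply, hi.extend_apply]
          rfl
        · rw [Function.extend_apply' _ _ _ h, Function.extend_apply' _ _ _ h]
          simp } 1 fun x => by
    rw [one_mul]
    exact (c0_norm_le _ (norm_nonneg x)).2 fun n => ext_bound hi x n

theorem emb_apply {S : Set Γ} (i : S → ℕ) (hi : Function.Injective i) (x : C₀(Γ, Z)) (γ : S) :
    emb i hi x (i γ) = x γ := by
  change Function.extend i (fun γ : S => x γ) 0 (i γ) = x γ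
  rw [hi.extend_apply]

theorem norm_le_emb {S : Set Γ} (i : S → ℕ) (hi : Function.Injective i) (x : C₀(Γ, Z))
    (hx : ∀ γ, γ ∉ S → x γ = 0) : ‖x‖ ≤ ‖emb i hi x‖ := by
  refine (c0_norm_le x (norm_nonneg _)).2 fun γ => ?_
  by_cases h : γ ∈ S
  · rw [← emb_apply i hi x ⟨γ, h⟩]
    exact c0_apply_le _ _
  · rw [hx γ h, norm_zero]
    exact norm_nonneg _

end Pool.Agent.Helper94.SR
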