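import Pool.Agent.Helper94.SR.Emb

/-! The restrictions of the elements of `c_0(Γ; Z)` to the subsets of `Γ`. -/

open scoped ZeroAtInfty
open Set Filter Topology

set_option linter.unusedSectionVars false

namespace Pool.Agent.Helper94.SR

variable {Γ : Type*} [TopologicalSpace Γ] [DiscreteTopology Γ] {Z : Type*} [NormedAddCommGroup Z]
  [NormedSpace ℝ Z]

theorem ind_norm_le (S : Set Γ) (x : C₀(Γ, Z)) (γ : Γ) :
    ‖S.indicator (fun γ => x γ) γ‖ ≤ ‖x γ‖ :=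
  norm_indicator_le_norm_self _ _

/-- The restriction to `S`. -/
noncomputable def rs (S : Set Γ) : C₀(Γ, Z) →L[ℝ] C₀(Γ, Z) :=
  LinearMap.mkContinuous
    { toFun := fun x => mk0 (S.indicator fun γ => x γ) fun ε hε =>
        (c0_finite x hε).subset fun γ hγ => le_trans hγ (ind_norm_le S x γ)
      map_add' := fun x y => by
        ext γ
        rw [ZeroAtInftyContinuousMap.add_apply, mk0_apply, mk0_apply, mk0_apply]
        by_cases h : γ ∈ S
        · simp [h]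
        · simp [h]
      map_smul' := fun a x => by
        ext γ
        rw [RingHom.id_apply, ZeroAtInftyContinuousMap.smul_apply, mk0_apply, mk0_apply]
        by_cases h : γ ∈ S
        · simp [h]
        · simp [h] } 1 fun x => by
    rw [one_mul]
    exact (c0_norm_le _ (norm_nonneg x)).2 fun γ => (ind_norm_le S x γ).trans (c0_apply_le x γ)

theorem rs_apply (S : Set Γ) (x : C₀(Γ, Z)) (γ : Γ) :
    rs S x γ = S.indicator (fun γ => x γ) γ := rfl

theorem rs_mem {S : Set Γ} (x : C₀(Γ, Z)) {γ : Γ} (h : γ ∈ S) : rs S x γ = x γ := by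
  rw [rs_apply, indicator_of_mem h]

theorem rs_notMem {S : Set Γ} (x : C₀(Γ, Z)) {γ : Γ} (h : γ ∉ S) : rs S x γ = 0 := by
  rw [rs_apply, indicator_of_notMem h]

theorem rs_rs {S S' : Set Γ} (h : S ⊆ S') (x : C₀(Γ, Z)) : rs S (rs S' x) = rs S x := by
  ext γ
  by_cases h1 : γ ∈ S
  · rw [rs_mem _ h1, rs_mem _ (h h1), rs_mem _ h1]
  · rw [rs_notMem _ h1, rs_notMem _ h1]

theorem rs_rs' {S S' : Set Γ} (h : S ⊆ S') (x : C₀(Γ, Z)) : rs S' (rs S x) = rs S x := by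
  ext γ
  by_cases h1 : γ ∈ S
  · rw [rs_mem _ (h h1)]
  · by_cases h2 : γ ∈ S'
    · rw [rs_mem _ h2]
    · rw [rs_notMem _ h2, rs_notMem _ h1]

theorem rs_dense (x : C₀(Γ, Z)) {δ : ℝ} (hδ : 0 < δ) :
    ∃ F : Finset Γ, ‖x - rs (F : Set Γ) x‖ ≤ δ := by
  refine ⟨(c0_finite x hδ).toFinset, (c0_norm_le _ hδ.le).2 fun γ => ?_⟩
  rw [ZeroAtInftyContinuousMap.sub_apply]
  by_cases h : δ ≤ ‖x γ‖
  · rw [rs_mem _ (by simpa using h), sub_self, norm_zero]
    exact hδ.le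
  · rw [rs_notMem _ (by simpa using h), sub_zero]
    exact (not_le.1 h).le

theorem rs_sep [TopologicalSpace.SeparableSpace Z] {S : Set Γ} (hS : S.Countable) :
    TopologicalSpace.IsSeparable (Set.range (rs (Z := Z) S)) := by
  classical
  have hfin : ∀ F : Finset Γ, TopologicalSpace.IsSeparable (Set.range (rs (Z := Z) (F : Set Γ))) := by
    intro F
    have h1 : TopologicalSpace.IsSeparable
        (Set.range fun v : F → Z => (mk0 (fun γ => if h : γ ∈ F then v ⟨γ, h⟩ else 0) (by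
          intro ε hε
          refine F.finite_toSet.subset fun γ hγ => ?_
          by_contra h
          have h' : γ ∉ F := by simpa using h
          have h2 : ε ≤ ‖(if h : γ ∈ F then v ⟨γ, h⟩ else 0 : Z)‖ := hγ
          rw [dif_neg h', norm_zero] at h2
          linarith) : C₀(Γ, Z))) := by
      refine TopologicalSpace.isSeparable_range ?_
      refine (LipschitzWith.of_dist_le_mul (K := 1) fun v w => ?_).continuous
      rw [NNReal.coe_one, one_mul, dist_eq_norm, dist_eq_norm]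
      refine (c0_norm_le _ (norm_nonneg _)).2 fun γ => ?_
      rw [ZeroAtInftyContinuousMap.sub_apply, mk0_apply, mk0_apply]
      by_cases h : γ ∈ F
      · rw [dif_pos h, dif_pos h]
        exact norm_le_pi_norm (v - w) ⟨γ, h⟩
      · rw [dif_neg h, dif_neg h, sub_zero, norm_zero]
        exact norm_nonneg _
    refine h1.mono ?_
    rintro _ ⟨x, rfl⟩
    refine ⟨fun γ => x γ, ?_⟩
    ext γ
    rw [mk0_apply]
    by_cases h : γ ∈ F
    · rw [dif_pos h, rs_mem _ (by simpa using h)]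
    · rw [dif_neg h, rs_notMem _ (by simpa using h)]
  haveI : Countable S := hS.to_subtype
  have hU : TopologicalSpace.IsSeparable (⋃ F : Finset S,
      Set.range (rs (Z := Z) ((F.image Subtype.val : Finset Γ) : Set Γ))) :=
    TopologicalSpace.IsSeparable.iUnion fun F => hfin _
  refine hU.closure.mono ?_
  rintro _ ⟨x, rfl⟩
  rw [Metric.mem_closure_iff]
  intro ε hε
  obtain ⟨F, hF⟩ := rs_dense (rs S x) (half_pos hε)
  have hsub : rs (F : Set Γ) (rs S x) = rs (((F.preimage (Subtype.val : S → Γ)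
      Subtype.val_injective.injOn).image Subtype.val : Finset Γ) : Set Γ) (rs S x) := by
    ext γ
    by_cases h1 : γ ∈ S
    · by_cases h2 : γ ∈ F
      · rw [rs_mem (S := (F : Set Γ)) _ (by simpa using h2)]
        exact (rs_mem _ (by simp [h1, h2])).symm
      · rw [rs_notMem (S := (F : Set Γ)) _ (by simpa using h2)]
        exact (rs_notMem _ (by simp [h2])).symm
    · have h3 : rs S x γ = 0 := rs_notMem _ h1
      have h4 : ∀ U : Set Γ, rs U (rs S x) γ = 0 := fun U => by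
        by_cases h5 : γ ∈ U
        · rw [rs_mem _ h5, h3]
        · rw [rs_notMem _ h5]
      rw [h4, h4]
  refine ⟨_, mem_iUnion.2 ⟨F.preimage (Subtype.val : S → Γ) Subtype.val_injective.injOn,
    ⟨rs S x, rfl⟩⟩, ?_⟩
  rw [← hsub, dist_eq_norm]
  linarith

/-- Evaluation at a point. -/
def ev (γ : Γ) : C₀(Γ, Z) →ₗ[ℝ] Z where
  toFun := fun x => x γ
  map_add' := fun _ _ => rfl
  map_smul' := fun _ _ => rfl

theorem sum_apply' (F : Finset ℕ) (v : ℕ → C₀(Γ, Z)) (γ : Γ) :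
    (∑ l ∈ F, v l) γ = ∑ l ∈ F, v l γ := map_sum (ev γ) v F

/-- Sums of vectors with disjoint supports. -/
theorem norm_sum_disj (F : Finset ℕ) (v : ℕ → C₀(Γ, Z)) (s : ℕ → Set Γ)
    (hd : ∀ l ∈ F, ∀ l' ∈ F, l ≠ l' → Disjoint (s l) (s l')) {R : ℝ} (hR : 0 ≤ R)
    (hv : ∀ l ∈ F, ∀ γ, ‖v l γ‖ ≤ R) (hs : ∀ l ∈ F, ∀ γ, γ ∉ s l → v l γ = 0) :
    ‖∑ l ∈ F, v l‖ ≤ R := by
  refine (c0_norm_le _ hR).2 fun γ => ?_
  rw [sum_apply']
  by_cases h : ∃ l ∈ F, γ ∈ s l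
  · obtain ⟨l, hl, hγ⟩ := h
    rw [Finset.sum_eq_single_of_mem l hl fun l' hl' hne => hs l' hl' γ fun h' =>
      disjoint_left.1 (hd l hl l' hl' hne.symm) hγ h']
    exact hv l hl γ
  · rw [Finset.sum_eq_zero fun l hl => hs l hl γ fun h' => h ⟨l, hl, h'⟩, norm_zero]
    exact hR

theorem disj_of {F : Finset ℕ} {a b : ℕ → Set Γ}
    (h : ∀ l ∈ F, ∀ l' ∈ F, l ≠ l' → b l ⊆ a l' ∨ b l' ⊆ a l) :
    ∀ l ∈ F, ∀ l' ∈ F, l ≠ l' → Disjoint (b l \ a l) (b l' \ a l') := by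
  intro l hl l' hl' hne
  rw [disjoint_left]
  rintro γ ⟨h1, h2⟩ ⟨h3, h4⟩
  rcases h l hl l' hl' hne with h5 | h5
  · exact h4 (h5 h1)
  · exact h2 (h5 h3)

theorem rs_unc (F : Finset ℕ) (a b : ℕ → Set Γ) (hab : ∀ l ∈ F, a l ⊆ b l)
    (h : ∀ l ∈ F, ∀ l' ∈ F, l ≠ l' → b l ⊆ a l' ∨ b l' ⊆ a l) (x : C₀(Γ, Z)) :
    ‖∑ l ∈ F, (rs (b l) x - rs (a l) x)‖ ≤ 1 * ‖x‖ := by
  rw [one_mul]
  refine norm_sum_disj F _ (fun l => b l \ a l) (disj_of h) (norm_nonneg x) (fun l hl γ => ?_)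
    fun l hl γ hγ => ?_
  · rw [ZeroAtInftyContinuousMap.sub_apply]
    by_cases h1 : γ ∈ a l
    · rw [rs_mem _ h1, rs_mem _ (hab l hl h1), sub_self, norm_zero]
      exact norm_nonneg x
    · rw [rs_notMem (S := a l) _ h1, sub_zero]
      exact (ind_norm_le (b l) x γ).trans (c0_apply_le x γ)
  · rw [ZeroAtInftyContinuousMap.sub_apply]
    by_cases h1 : γ ∈ a l
    · rw [rs_mem _ h1, rs_mem _ (hab l hl h1), sub_self]
    · have h2 : γ ∉ b l := fun h3 => hγ ⟨h3, h1⟩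
      rw [rs_notMem _ h1, rs_notMem _ h2, sub_zero]

theorem rs_avg {η : ℝ} (hη : 0 < η) : ∃ m : ℕ, 0 < m ∧ ∀ (v : ℕ → C₀(Γ, Z)) (a b : ℕ → Set Γ),
    (∀ l < m, ∀ l' < m, l ≠ l' → b l ⊆ a l' ∨ b l' ⊆ a l) →
    (∀ j < m, ‖v j‖ ≤ 1) → (∀ j < m, rs (b j) (v j) = v j) → (∀ j < m, rs (a j) (v j) = 0) →
    ‖∑ j ∈ Finset.range m, v j‖ ≤ η * m := by
  obtain ⟨m, hm⟩ := exists_nat_gt (1 / η)
  have hm0 : (0 : ℝ) < m := lt_trans (by positivity) hm
  refine ⟨m, by exact_mod_cast hm0, fun v a b h hv hb ha => ?_⟩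
  have h1 : 1 ≤ η * m := by
    rw [div_lt_iff₀ hη] at hm
    linarith
  refine (norm_sum_disj (Finset.range m) v (fun l => b l \ a l) (disj_of fun l hl l' hl' =>
    h l (Finset.mem_range.1 hl) l' (Finset.mem_range.1 hl')) zero_le_one (fun l hl γ =>
      (c0_apply_le _ γ).trans (hv l (Finset.mem_range.1 hl))) fun l hl γ hγ => ?_).trans h1
  have hl' := Finset.mem_range.1 hl
  by_cases h2 : γ ∈ b l
  · have h3 : γ ∈ a l := by
      by_contra h4
      exact hγ ⟨h2, h4⟩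
    have h5 : rs (a l) (v l) γ = 0 := by rw [ha l hl']; rfl
    rwa [rs_mem _ h3] at h5
  · rw [← hb l hl', rs_notMem _ h2]

end Pool.Agent.Helper94.SR
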