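import Pool.Agent.Helper94.SR.Moll

/-! The property `(*^k)` with a constant independent of the norm passes to subspaces. -/

open scoped ContDiff NNReal
open Set Filter Topology

namespace Pool.Agent.Helper94.SR

set_option linter.unusedSectionVars false

/-- Property `(*^k)` with the constant `Cr` for every equivalent norm. -/
def StarAll (k : WithTop ℕ∞) (V : Type*) [NormedAddCommGroup V] [NormedSpace ℝ V] (Cr : ℝ) :
    Prop :=
  ∀ (q : Seminorm ℝ V) (M : ℝ), 0 < M → (∀ w, q w ≤ M * ‖w‖) → (∀ w, ‖w‖ ≤ M * q w) →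
    ∀ (f : V → ℝ) (Λ : ℝ), 0 ≤ Λ → (∀ x y, |f x - f y| ≤ Λ * q (x - y)) → ∀ ε : ℝ, 0 < ε →
    ∃ K : V → ℝ, ContDiff ℝ k K ∧ (∀ x y, |K x - K y| ≤ Cr * Λ * q (x - y)) ∧
      ∀ x, |f x - K x| < ε

variable {W V : Type*} [NormedAddCommGroup W] [NormedSpace ℝ W] [NormedAddCommGroup V]
  [NormedSpace ℝ V]

/-- The values whose infimum is the extended norm. -/
noncomputable def extV (q : Seminorm ℝ W) (J : W →L[ℝ] V) (C : ℝ) (z : V) (x : W) : ℝ :=
  q x + C * ‖z - J x‖

theorem extV_nonneg (q : Seminorm ℝ W) (J : W →L[ℝ] V) {C : ℝ} (hC : 0 ≤ C) (z : V) (x : W) :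
    0 ≤ extV q J C z x := by
  unfold extV
  have := apply_nonneg q x
  positivity

theorem extV_bdd (q : Seminorm ℝ W) (J : W →L[ℝ] V) {C : ℝ} (hC : 0 ≤ C) (z : V) :
    BddBelow (range (extV q J C z)) := ⟨0, by rintro _ ⟨x, rfl⟩; exact extV_nonneg q J hC z x⟩

/-- The extended norm. -/
noncomputable def extN (q : Seminorm ℝ W) (J : W →L[ℝ] V) (C : ℝ) (hC : 0 ≤ C) : Seminorm ℝ V :=
  Seminorm.of (fun z => ⨅ x, extV q J C z x)
    (by
      intro z w
      rw [← sub_le_iff_le_add']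
      refine le_ciInf fun (y : W) => ?_
      rw [sub_le_iff_le_add', ← sub_le_iff_le_add]
      refine le_ciInf fun (x : W) => ?_
      rw [sub_le_iff_le_add]
      refine (ciInf_le (extV_bdd q J hC _) (x + y)).trans ?_
      unfold extV
      have h1 : ‖z + w - J (x + y)‖ ≤ ‖z - J x‖ + ‖w - J y‖ := by
        have : z + w - J (x + y) = (z - J x) + (w - J y) := by rw [map_add]; abel
        rw [this]; exact norm_add_le _ _
      have h2 := map_add_le_add q x y
      nlinarith)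
    (by
      intro a z
      have hle : ∀ (a : ℝ) (z : V), (⨅ x, extV q J C (a • z) x) ≤ ‖a‖ * ⨅ x, extV q J C z x := by
        intro a z
        rw [Real.mul_iInf_of_nonneg (norm_nonneg a)]
        refine le_ciInf fun x => ?_
        refine (ciInf_le (extV_bdd q J hC _) (a • x)).trans_eq ?_
        unfold extV
        have h0 : a • z - J (a • x) = a • (z - J x) := by
          rw [map_smul, smul_sub]
        rw [h0, norm_smul, map_smul_eq_mul]
        ring
      refine le_antisymm (hle a z) ?_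
      by_cases ha : a = 0
      · rw [ha, norm_zero, zero_mul]
        exact Real.iInf_nonneg fun x => extV_nonneg q J hC _ x
      · have h1 := hle a⁻¹ (a • z)
        rw [smul_smul, inv_mul_cancel₀ ha, one_smul, norm_inv] at h1
        have h2 : 0 < ‖a‖ := norm_pos_iff.2 ha
        calc ‖a‖ * ⨅ x, extV q J C z x ≤ ‖a‖ * (‖a‖⁻¹ * ⨅ x, extV q J C (a • z) x) := by gcongr
          _ = ⨅ x, extV q J C (a • z) x := by rw [← mul_assoc, mul_inv_cancel₀ h2.ne', one_mul])

theorem extN_le (q : Seminorm ℝ W) (J : W →L[ℝ] V) (C : ℝ) (hC : 0 ≤ C) (z : V) (x : W) :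
    extN q J C hC z ≤ q x + C * ‖z - J x‖ := ciInf_le (extV_bdd q J hC z) x

theorem extN_le_mul (q : Seminorm ℝ W) (J : W →L[ℝ] V) (C : ℝ) (hC : 0 ≤ C) (z : V) :
    extN q J C hC z ≤ C * ‖z‖ := by
  simpa using extN_le q J C hC z 0

theorem norm_le_extN (q : Seminorm ℝ W) (J : W →L[ℝ] V) (C : ℝ) (hC : 1 ≤ C) {M : ℝ} (hM : 0 < M)
    (hq : ∀ w, ‖w‖ ≤ M * q w) (z : V) :
    ‖z‖ ≤ (‖J‖ * M + 1) * extN q J C (zero_le_one.trans hC) z := by
  have hT : 0 < ‖J‖ * M + 1 := by positivity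
  rw [← inv_mul_le_iff₀ hT]
  refine le_ciInf fun x => ?_
  rw [inv_mul_le_iff₀ hT]
  unfold extV
  have h1 : ‖z‖ ≤ ‖z - J x‖ + ‖J x‖ := by
    have := norm_add_le (z - J x) (J x); simpa using this
  have h2 : ‖J x‖ ≤ ‖J‖ * (M * q x) := (J.le_opNorm x).trans (by gcongr; exact hq x)
  have h3 : 0 ≤ ‖z - J x‖ := norm_nonneg _
  have h4 : 0 ≤ q x := apply_nonneg q x
  have h5 : 0 ≤ ‖J‖ * M := by positivity
  have h6 : ‖z - J x‖ ≤ C * ‖z - J x‖ := by nlinarith
  nlinarith [mul_nonneg h5 (mul_nonneg (zero_le_one.trans hC) h3)]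

theorem extN_map (q : Seminorm ℝ W) (J : W →L[ℝ] V) (C : ℝ) (hC : 0 ≤ C)
    (hJ : ∀ x, q x ≤ C * ‖J x‖) (x : W) : extN q J C hC (J x) = q x := by
  refine le_antisymm (by simpa using extN_le q J C hC (J x) x) ?_
  refine le_ciInf fun y => ?_
  unfold extV
  rw [← map_sub]
  have h1 := hJ (x - y)
  have h2 : q x ≤ q (x - y) + q y := by
    have := map_add_le_add q (x - y) y; simpa using this
  linarith

/-- **The property passes to subspaces.** -/
theorem StarAll.of_embedding {k : WithTop ℕ∞} {Cr : ℝ} (h : StarAll k V Cr) (J : W →L[ℝ] V)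
    {c : ℝ} (hc : 0 < c) (hJ : ∀ x, c * ‖x‖ ≤ ‖J x‖) : StarAll k W Cr := by
  intro q M hM hq1 hq2 f Λ hΛ hf ϵ hϵ
  set C : ℝ := max 1 (M / c) with hCd
  have hC1 : 1 ≤ C := le_max_left _ _
  have hC : 0 ≤ C := zero_le_one.trans hC1
  have hJC : ∀ x, q x ≤ C * ‖J x‖ := fun x => by
    calc q x ≤ M * ‖x‖ := hq1 x
      _ = M / c * (c * ‖x‖) := by field_simp
      _ ≤ M / c * ‖J x‖ := by gcongr; exact hJ x
      _ ≤ C * ‖J x‖ := by gcongr; exact le_max_right _ _
  set p : Seminorm ℝ V := extN q J C hC with hp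
  have hpT : ∀ x, p (J x) = q x := fun x => extN_map q J C hC hJC x
  set M' : ℝ := max C (‖J‖ * M + 1) with hM'
  have hM0 : 0 < M' := lt_of_lt_of_le one_pos (hC1.trans (le_max_left _ _))
  have hp1 : ∀ z, p z ≤ M' * ‖z‖ := fun z =>
    (extN_le_mul q J C hC z).trans (by gcongr; exact le_max_left _ _)
  have hp2 : ∀ z, ‖z‖ ≤ M' * p z := fun z =>
    (norm_le_extN q J C hC1 hM hq2 z).trans
      (mul_le_mul_of_nonneg_right (le_max_right _ _) (apply_nonneg p z))
  -- McShane extension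
  set g : V → ℝ := fun z => ⨅ x, (f x + Λ * p (z - J x)) with hg
  have hlow : ∀ z x x0, f x0 - Λ * p (z - J x0) ≤ f x + Λ * p (z - J x) := by
    intro z x x0
    have h1 := (abs_le.1 (hf x x0)).1
    have h2 : q (x - x0) ≤ p (z - J x) + p (z - J x0) := by
      rw [← hpT, map_sub]
      have : J x - J x0 = (z - J x0) - (z - J x) := by abel
      rw [this]
      exact (map_sub_le_add p _ _).trans_eq (add_comm _ _)
    nlinarith
  have hbdd : ∀ z, BddBelow (range fun x => f x + Λ * p (z - J x)) := fun z =>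
    ⟨f 0 - Λ * p (z - J 0), by rintro _ ⟨x, rfl⟩; exact hlow z x 0⟩
  have hgT : ∀ x, g (J x) = f x := by
    intro x
    refine le_antisymm ?_ ?_
    · refine (ciInf_le (hbdd (J x)) x).trans_eq ?_
      simp
    · refine le_ciInf fun y => ?_
      have := hlow (J x) y x
      simpa using this
  have hgl : ∀ z w, g z ≤ g w + Λ * p (z - w) := by
    intro z w
    rw [← sub_le_iff_le_add]
    refine le_ciInf fun x => ?_
    rw [sub_le_iff_le_add]
    refine (ciInf_le (hbdd z) x).trans ?_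
    have h1 : p (z - J x) ≤ p (w - J x) + p (z - w) := by
      have : z - J x = (w - J x) + (z - w) := by abel
      rw [this]; exact map_add_le_add p _ _
    nlinarith
  have hgL : ∀ z w, |g z - g w| ≤ Λ * p (z - w) := by
    intro z w
    rw [abs_sub_le_iff]
    refine ⟨by linarith [hgl z w], ?_⟩
    have := hgl w z
    rw [map_sub_rev] at this
    linarith
  obtain ⟨K, h1, h2, h3⟩ := h p M' hM0 hp1 hp2 g Λ hΛ hgL ϵ hϵ
  refine ⟨fun x => K (J x), h1.comp J.contDiff, fun x y => ?_, fun x => ?_⟩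
  · refine (h2 _ _).trans_eq ?_
    rw [← map_sub, hpT]
  · have := h3 (J x)
    rwa [hgT] at this

end Pool.Agent.Helper94.SR
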