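import Pool.Agent.Helper94.SR.Final
import Pool.Agent.Helper94.SR.Inh
import Pool.Agent.Helper94.SR.Res

/-! The instance `c_0(I; Z)`, `Z` separable. -/

open scoped ZeroAtInfty ContDiff NNReal
open Set Filter Topology

namespace Pool.Agent.Helper94.SR

open Pool.Agent.Helper94.UF

set_option linter.unusedSectionVars false

/-- The countable subsets. -/
abbrev Cs (I : Type*) : Type _ := {S : Set I // S.Countable}

theorem cs_dir {I : Type*} (u : ℕ → Cs I) : ∃ t : Cs I, ∀ n, u n ≤ t :=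
  ⟨⟨⋃ n, (u n).1, countable_iUnion fun n => (u n).2⟩, fun n => subset_iUnion (fun n => (u n).1) n⟩

variable {I : Type*} [TopologicalSpace I] [DiscreteTopology I] {Z : Type*} [NormedAddCommGroup Z]
  [NormedSpace ℝ Z]

theorem rs_bdd (S : Set I) (x : C₀(I, Z)) : ‖rs S x‖ ≤ 1 * ‖x‖ := by
  rw [one_mul]
  exact (c0_norm_le _ (norm_nonneg x)).2 fun γ => (ind_norm_le S x γ).trans (c0_apply_le x γ)

/-- The restriction to a countable subset. -/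
noncomputable def Pc (s : Cs I) : C₀(I, Z) →L[ℝ] C₀(I, Z) := rs s.1

theorem Pc_PP (s t : Cs I) (hst : s ≤ t) (x : C₀(I, Z)) : Pc s (Pc t x) = Pc s x := rs_rs hst x

theorem Pc_PP' (s t : Cs I) (hst : s ≤ t) (x : C₀(I, Z)) : Pc t (Pc s x) = Pc s x := rs_rs' hst x

theorem Pc_bdd (s : Cs I) (x : C₀(I, Z)) : ‖Pc s x‖ ≤ 1 * ‖x‖ := rs_bdd s.1 x

theorem Pc_dens (x : C₀(I, Z)) (ε : ℝ) (hε : 0 < ε) : ∃ s : Cs I, ‖x - Pc s x‖ ≤ ε := by
  obtain ⟨F, hF⟩ := rs_dense x hε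
  exact ⟨⟨(F : Set I), F.countable_toSet⟩, hF⟩

theorem Pc_sep [TopologicalSpace.SeparableSpace Z] (s : Cs I) :
    TopologicalSpace.IsSeparable (Set.range (Pc (Z := Z) s)) := rs_sep s.2

theorem Pc_near [TopologicalSpace.SeparableSpace Z] (B : Cs I) (Θ : Set (C₀(I, Z))) (ε : ℝ)
    (hε : 0 < ε) : ∃ B' : Cs I, B ≤ B' ∧
    ∀ x ∈ Θ, ∃ x' ∈ Θ, ‖Pc B x - Pc B x'‖ ≤ ε ∧ ‖x' - Pc B' x'‖ ≤ ε :=
  by
  have h0 := near_of (X := C₀(I, Z)) (ι := Cs I) (C := 1) cs_dir Pc Pc_PP' le_rfl Pc_bdd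
  have h1 := h0 Pc_sep Pc_dens
  exact h1 B Θ ε hε

theorem Pc_unc (F : Finset ℕ) (a b : ℕ → Cs I) (h : NonOv F a b) (x : C₀(I, Z)) :
    ‖∑ l ∈ F, (Pc (b l) x - Pc (a l) x)‖ ≤ 1 * ‖x‖ :=
  rs_unc F (fun l => (a l).1) (fun l => (b l).1) (fun l hl => h.1 l hl)
    (fun l hl l' hl' hne => h.2 l hl l' hl' hne) x

theorem Pc_avg (η : ℝ) (hη : 0 < η) : ∃ m : ℕ, 0 < m ∧ ∀ (v : ℕ → C₀(I, Z))
    (a b : ℕ → Cs I), NonOv (Finset.range m) a b → (∀ j < m, ‖v j‖ ≤ 1) →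
    (∀ j < m, Pc (b j) (v j) = v j) → (∀ j < m, Pc (a j) (v j) = 0) →
    ‖∑ j ∈ Finset.range m, v j‖ ≤ η * m := by
  obtain ⟨m, hm, h⟩ := rs_avg (Γ := I) (Z := Z) hη
  refine ⟨m, hm, fun v a b hab h1 h2 h3 => ?_⟩
  exact h v (fun l => (a l).1) (fun l => (b l).1)
    (fun l hl l' hl' hne => hab.2 l (Finset.mem_range.2 hl) l' (Finset.mem_range.2 hl') hne)
    h1 (fun j hj => h2 j hj) (fun j hj => h3 j hj)

/-- The system of the restrictions to the countable subsets. -/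
noncomputable def c0sys [TopologicalSpace.SeparableSpace Z] : SPS (C₀(I, Z)) (Cs I) where
  P := Pc
  PP := Pc_PP
  PP' := Pc_PP'
  near := Pc_near
  C := 1
  C1 := le_rfl
  bdd := Pc_bdd
  unc := Pc_unc
  dens := Pc_dens
  avg := Pc_avg

theorem c0_rangeStar [TopologicalSpace.SeparableSpace Z] {k : WithTop ℕ∞} {Cr : ℝ}
    (h : StarAll k (C₀(ℕ, Z)) Cr) : RangeStar k (c0sys (I := I) (Z := Z)).P Cr := by
  intro s
  haveI : Countable s.1 := s.2.to_subtype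
  obtain ⟨i, hi⟩ := exists_injective_nat s.1
  refine StarAll.of_embedding h ((emb i hi).comp (Submodule.subtypeL _)) one_pos fun w => ?_
  rw [one_mul]
  refine norm_le_emb i hi (w : C₀(I, Z)) fun γ hγ => ?_
  obtain ⟨x, hx⟩ := w.2
  rw [← hx]
  exact rs_notMem x hγ

/-- The conclusion for the subspaces of `c_0(I; Z)`. -/
theorem c0_conclusion [TopologicalSpace.SeparableSpace Z] {Y Γ : Type*} [NormedAddCommGroup Y]
    [NormedSpace ℝ Y] (k : ℕ∞) (hk : 1 ≤ k) {Cr : ℝ≥0} (hCr : 1 ≤ Cr)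
    (h : StarAll (k : WithTop ℕ∞) (C₀(ℕ, Z)) Cr) (K : EK (k : WithTop ℕ∞) Y Γ)
    (T : Y →L[ℝ] C₀(I, Z)) (c' : ℝ) (hc' : 0 < c') (hT : ∀ y, c' * ‖y‖ ≤ ‖T y‖)
    (f : Y → ℝ) (L : ℝ≥0) (hf : LipschitzWith L f) (ε : ℝ) (hε : 0 < ε) :
    ∃ K : Y → ℝ, ContDiff ℝ k K ∧ LipschitzWith (Cr * L) K ∧ ∀ y, |f y - K y| < ε := by
  haveI : Nonempty (Cs I) := ⟨⟨∅, countable_empty⟩⟩
  haveI : IsDirectedOrder (Cs I) := ⟨fun s t =>
    ⟨⟨s.1 ∪ t.1, s.2.union t.2⟩, subset_union_left, subset_union_right⟩⟩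
  exact conclusion k hk c0sys hCr (c0_rangeStar h) K T c' hc' hT f L hf ε hε

end Pool.Agent.Helper94.SR
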