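import Pool.Agent.Helper94.SR.Mult

/-! The projections attached to the codes. -/

open Set Filter Topology

namespace Pool.Agent.Helper94.SR

open Pool.Agent.Helper94.UF

set_option linter.unusedSectionVars false

variable {Γ : Type*} {X : Type*} [NormedAddCommGroup X] [NormedSpace ℝ X] {ι : Type*}
  [Preorder ι] {Y : Type*} [NormedAddCommGroup Y] [NormedSpace ℝ Y] {k : WithTop ℕ∞}
  (E : SPS X ι) (K : EK k Y Γ) (T : Y →L[ℝ] X)

/-- The constant in the tail estimate. -/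
noncomputable def C3 : ℝ := (1 + E.C) * (‖T‖ * (8 / K.c)) + 1

theorem C3_pos : 0 < C3 E K T := by
  have := E.C0
  have := K.c0
  unfold C3
  positivity

theorem exists_star [IsDirectedOrder ι] [Nonempty ι] (A : Cd Γ) :
    ∃ B : ι, ∀ x ∈ XA K A, ∀ B' : ι, B ≤ B' →
    ‖T x - E.P B' (T x)‖ ≤ C3 E K T * tlow A := by
  classical
  have ht := tlow_pos A
  have hC := E.C0
  have hc := K.c0
  have hinj : Function.Injective (fun γ : Γ => (Sum.inl (γ, 0) : (Γ × ℕ) ⊕ ℕ)) := by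
    intro a b hab
    simpa using hab
  set G : Finset Γ := A.preimage (fun γ => (Sum.inl (γ, 0) : (Γ × ℕ) ⊕ ℕ)) hinj.injOn with hG
  have hmemG : ∀ γ, γ ∈ G ↔ (Sum.inl (γ, 0) : (Γ × ℕ) ⊕ ℕ) ∈ A := fun γ => by
    rw [hG, Finset.mem_preimage]
  let r : Y → (G → ℝ) := fun x γ => K.Φ x γ
  have hbdd : TotallyBounded (r '' XA K A) := by
    have : r '' XA K A ⊆ Metric.closedBall 0 (A.card + 2) := by
      rintro _ ⟨x, hx, rfl⟩
      rw [mem_closedBall_zero_iff, pi_norm_le_iff_of_nonneg (by positivity)]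
      intro γ
      exact hx.2 γ
    exact ((isCompact_closedBall (0 : G → ℝ) (A.card + 2)).totallyBounded).subset this
  obtain ⟨t, htt, htf, hcov⟩ := hbdd.exists_subset (Metric.dist_mem_uniformity ht)
  have ht2 : ∀ y, y ∈ t → ∃ x : Y, x ∈ XA K A ∧ r x = y := fun y hy => htt hy
  choose! g hg using ht2
  choose! tl htl using fun x : Y => E.exists_tail (T x) ht
  obtain ⟨B, hB⟩ := Finset.exists_le (htf.toFinset.image fun y => tl (g y))
  refine ⟨B, fun x hx B' hBB => ?_⟩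
  obtain ⟨y, hy, hxy⟩ := mem_iUnion₂.1 (hcov ⟨x, hx, rfl⟩)
  have hgy : g y ∈ XA K A := (hg y hy).1
  have hry : r (g y) = y := (hg y hy).2
  have hsub : tl (g y) ≤ B' :=
    (hB _ (Finset.mem_image.2 ⟨y, htf.mem_toFinset.2 hy, rfl⟩)).trans hBB
  have hclose : ∀ γ, |K.Φ x γ - K.Φ (g y) γ| ≤ 8 * tlow A := by
    intro γ
    by_cases hγ : γ ∈ G
    · have h3 : dist (r x) y < tlow A := hxy
      rw [← hry] at h3
      have h2 : dist (r x ⟨γ, hγ⟩) (r (g y) ⟨γ, hγ⟩) ≤ dist (r x) (r (g y)) :=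
        dist_le_pi_dist _ _ _
      rw [Real.dist_eq] at h2
      have h4 : |K.Φ x γ - K.Φ (g y) γ| ≤ dist (r x) (r (g y)) := h2
      linarith
    · have h5 : (Sum.inl (γ, 0) : (Γ × ℕ) ⊕ ℕ) ∉ A := fun h => hγ ((hmemG γ).2 h)
      have h6 := hx.1 γ h5
      have h7 := hgy.1 γ h5
      have h8 := abs_sub (K.Φ x γ) (K.Φ (g y) γ)
      linarith
  have hxg : ‖x - g y‖ ≤ 8 / K.c * tlow A := by
    have := K.lower x (g y) (8 * tlow A) (by positivity) hclose
    rw [div_mul_eq_mul_div, le_div_iff₀ hc]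
    linarith
  have hdec : T x - E.P B' (T x) =
      (T (x - g y) - E.P B' (T (x - g y))) + (T (g y) - E.P B' (T (g y))) := by
    rw [map_sub, map_sub]; abel
  rw [hdec]
  calc ‖(T (x - g y) - E.P B' (T (x - g y))) + (T (g y) - E.P B' (T (g y)))‖
      ≤ ‖T (x - g y) - E.P B' (T (x - g y))‖ + ‖T (g y) - E.P B' (T (g y))‖ := norm_add_le _ _
    _ ≤ (1 + E.C) * ‖T (x - g y)‖ + tlow A := add_le_add (E.norm_sub_P_le _ _) (htl _ _ hsub)
    _ ≤ (1 + E.C) * (‖T‖ * (8 / K.c * tlow A)) + tlow A := by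
        gcongr
        exact (T.le_opNorm _).trans (by gcongr)
    _ = C3 E K T * tlow A := by unfold C3; ring

/-- Projections attached to codes. -/
structure Fam (p : Seminorm ℝ X) (ε : ℝ) where
  m : ℕ
  m0 : 0 < m
  S : ℕ → Cd Γ → ι
  mono_j : ∀ A, Monotone fun j => S j A
  strict : ∀ A' A, A' ⊂ A → S m A' ≤ S 0 A
  star : ∀ A, ∀ x ∈ XA K A, ∀ B' : ι, S 0 A ≤ B' → ‖T x - E.P B' (T x)‖ ≤ C3 E K T * tlow A
  avg : ∀ A x, p ((m : ℝ)⁻¹ • ∑ j ∈ Finset.range m, E.P (S j A) x) ≤ (1 + ε) * p x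

variable {p : Seminorm ℝ X} {M ε : ℝ}

theorem exists_fam [IsDirectedOrder ι] [Nonempty ι] (hM : 0 < M) (hp : ∀ x, p x ≤ M * ‖x‖)
    (hq : ∀ x, ‖x‖ ≤ M * p x) (hε : 0 < ε) : Nonempty (Fam E K T p ε) := by
  classical
  obtain ⟨N, m, hm, hN, hav⟩ := lemB E hM hp hq hε
  choose Bs hBs using fun A : Cd Γ => exists_star E K T A
  choose ub hub using fun s : Finset ι => Finset.exists_le s
  let H : (A : Cd Γ) → ((B : Cd Γ) → B ⊂ A → ι) → ι := fun A f =>
    ub (insert (Bs A) (A.ssubsets.attach.image fun B => N^[m] (f B.1 (Finset.mem_ssubsets.1 B.2))))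
  let U : Cd Γ → ι := fun A => Finset.strongInduction H A
  have hU : ∀ A, U A = ub (insert (Bs A) (A.ssubsets.attach.image fun B => N^[m] (U B.1))) :=
    fun A => Finset.strongInduction_eq H A
  have hsub : ∀ A B, B ⊂ A → N^[m] (U B) ≤ U A := by
    intro A B hBA
    rw [hU A]
    exact hub _ _ (Finset.mem_insert_of_mem (Finset.mem_image.2
      ⟨⟨B, Finset.mem_ssubsets.2 hBA⟩, Finset.mem_attach _ _, rfl⟩))
  have hBU : ∀ A, Bs A ≤ U A := fun A => by
    rw [hU A]; exact hub _ _ (Finset.mem_insert_self _ _)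
  exact ⟨⟨m, hm, fun j A => N^[j] (U A), fun A => monotone_nat_of_le_succ fun j => by
      rw [Function.iterate_succ_apply']; exact hN _,
    fun A' A h => hsub A A' h, fun A x hx B' hB => hBs A x hx B' ((hBU A).trans hB),
    fun A x => hav (U A) x⟩⟩

variable {E K T}

theorem Fam.mono_A (D : Fam E K T p ε) {A' A : Cd Γ} (h : A' ⊆ A) {j : ℕ} (hj : j ≤ D.m) :
    D.S j A' ≤ D.S j A := by
  rcases eq_or_ssubset_of_subset h with h' | h'
  · rw [h']
  · exact (D.mono_j A' hj).trans ((D.strict A' A h').trans (D.mono_j A (Nat.zero_le j)))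

end Pool.Agent.Helper94.SR
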