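import Pool.Agent.Helper94.SR.Main
import Pool.Agent.Helper94.UF.Embed

/-! Normed spaces which embed isomorphically into a space with a directed system. -/

open scoped ContDiff NNReal
open Set Filter Topology

namespace Pool.Agent.Helper94.SR

open Pool.Agent.Helper94.UF

set_option linter.unusedSectionVars false

variable {Γ ι : Type*} [Preorder ι] {Z : Type*} [NormedAddCommGroup Z] [NormedSpace ℝ Z]
variable {X : Type*} [NormedAddCommGroup X] [NormedSpace ℝ X]

/-- **Every normed space which embeds into `Z` has property `(*^k)` with every constant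
larger than the constant of the ranges.** -/
theorem star_of_embedding {k : WithTop ℕ∞} [IsDirectedOrder ι] [Nonempty ι] (E : SPS Z ι)
    {Cr : ℝ} (hCr : 1 ≤ Cr) (hR : RangeStar k E.P Cr) (K : EK k X Γ) (hk : k ≤ ∞)
    (T : X →L[ℝ] Z) {c : ℝ} (hc : 0 < c)
    (hT : ∀ x, c * ‖x‖ ≤ ‖T x‖) {C₀ : ℝ} (hC₀ : 1 < C₀) {f : X → ℝ} {Λ : ℝ} (hΛ : 0 ≤ Λ)
    (hf : ∀ x y, |f x - f y| ≤ Λ * ‖x - y‖) {ϵ : ℝ} (hϵ : 0 < ϵ) :
    ∃ h : X → ℝ, ContDiff ℝ k h ∧ (∀ x y, |h x - h y| ≤ C₀ * (Cr * Λ) * ‖x - y‖) ∧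
      ∀ x, |f x - h x| < ϵ := by
  set C : ℝ := max 1 c⁻¹ with hCd
  have hC1 : 1 ≤ C := le_max_left _ _
  have hC : 0 ≤ C := zero_le_one.trans hC1
  have hcC : 1 ≤ C * c := by
    calc (1 : ℝ) = c⁻¹ * c := (inv_mul_cancel₀ hc.ne').symm
      _ ≤ C * c := by gcongr; exact le_max_right _ _
  set p : Seminorm ℝ Z := extNorm T C hC with hp
  have hpT : ∀ x, p (T x) = ‖x‖ := fun x => extNorm_map T C hC hT hcC x
  set M : ℝ := max C (‖T‖ + 1) with hM
  have hM0 : 0 < M := lt_of_lt_of_le one_pos (hC1.trans (le_max_left _ _))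
  have hp1 : ∀ z, p z ≤ M * ‖z‖ := fun z =>
    (extNorm_le_mul T C hC z).trans (by gcongr; exact le_max_left _ _)
  have hp2 : ∀ z, ‖z‖ ≤ M * p z := fun z =>
    (norm_le_extNorm T C hC1 z).trans
      (mul_le_mul_of_nonneg_right (le_max_right _ _) (apply_nonneg p z))
  -- McShane extension
  set g : Z → ℝ := fun z => ⨅ x, (f x + Λ * p (z - T x)) with hg
  have hlow : ∀ z x x0, f x0 - Λ * p (z - T x0) ≤ f x + Λ * p (z - T x) := by
    intro z x x0
    have h1 := (abs_le.1 (hf x x0)).1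
    have h2 : ‖x - x0‖ ≤ p (z - T x) + p (z - T x0) := by
      rw [← hpT, map_sub]
      have : T x - T x0 = (z - T x0) - (z - T x) := by abel
      rw [this]
      exact (map_sub_le_add p _ _).trans_eq (add_comm _ _)
    nlinarith
  have hbdd : ∀ z, BddBelow (range fun x => f x + Λ * p (z - T x)) := fun z =>
    ⟨f 0 - Λ * p (z - T 0), by rintro _ ⟨x, rfl⟩; exact hlow z x 0⟩
  have hgT : ∀ x, g (T x) = f x := by
    intro x
    refine le_antisymm ?_ ?_
    · refine (ciInf_le (hbdd (T x)) x).trans_eq ?_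
      simp
    · refine le_ciInf fun y => ?_
      have := hlow (T x) y x
      simpa using this
  have hgl : ∀ z w, g z ≤ g w + Λ * p (z - w) := by
    intro z w
    rw [← sub_le_iff_le_add]
    refine le_ciInf fun x => ?_
    rw [sub_le_iff_le_add]
    refine (ciInf_le (hbdd z) x).trans ?_
    have h1 : p (z - T x) ≤ p (w - T x) + p (z - w) := by
      have : z - T x = (w - T x) + (z - w) := by abel
      rw [this]; exact map_add_le_add p _ _
    nlinarith
  have hgL : ∀ z w, |g z - g w| ≤ Λ * p (z - w) := by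
    intro z w
    rw [abs_sub_le_iff]
    refine ⟨by linarith [hgl z w], ?_⟩
    have := hgl w z
    rw [map_sub_rev] at this
    linarith
  have hM1 : 1 ≤ M := hC1.trans (le_max_left _ _)
  have hΛ' : 0 ≤ Cr * Λ := mul_nonneg (zero_le_one.trans hCr) hΛ
  have hgL' : ∀ z w, |g z - g w| ≤ Cr * Λ * p (z - w) := fun z w => by
    refine (hgL z w).trans ?_
    have h1 : Λ ≤ Cr * Λ := le_mul_of_one_le_left hΛ hCr
    exact mul_le_mul_of_nonneg_right h1 (apply_nonneg p _)
  obtain ⟨h, h1, h2, h3⟩ := main_seminorm E K T hk hM0 hp1 hp2 (fun y => by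
    rw [hpT]; nlinarith [norm_nonneg y]) hC₀ hΛ' hgL'
    (fun S κ hκ => moll E hR hM0 hp1 hp2 hΛ hgL S hκ) hϵ
  refine ⟨h, h1, fun x y => ?_, fun x => ?_⟩
  · refine (h2 _ _).trans_eq ?_
    rw [← map_sub, hpT]
  · have := h3 x
    rwa [hgT] at this

end Pool.Agent.Helper94.SR
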