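import Pool.Agent.Helper94.CZ.One

/-! From all constants larger than `Cr` to the constant `Cr`, for `C^k` functions. -/

open scoped ContDiff
open Set Filter Topology MeasureTheory

set_option linter.unusedSectionVars false
set_option linter.unusedVariables false

namespace Pool.Agent.Helper94.SR

open Pool.Agent.Helper94.CZ

variable {X : Type*} [NormedAddCommGroup X] [NormedSpace ℝ X]

/-- **If a normed space has property `(*^k)` with every constant larger than `Cr`, then it has
property `(*^k)` with the constant `Cr`.** -/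
theorem star_const {k : WithTop ℕ∞} (hk : k ≤ ∞) (hk1 : 1 ≤ k) {Cr : ℝ} (hCr : 0 ≤ Cr)
    (hstar : ∀ C₀ : ℝ, 1 < C₀ → ∀ (f : X → ℝ) (Λ : ℝ), 0 ≤ Λ →
      (∀ x y, |f x - f y| ≤ Λ * ‖x - y‖) → ∀ ϵ : ℝ, 0 < ϵ →
      ∃ K : X → ℝ, ContDiff ℝ k K ∧ (∀ x y, |K x - K y| ≤ C₀ * (Cr * Λ) * ‖x - y‖) ∧
        ∀ x, |f x - K x| < ϵ)
    {f : X → ℝ} {Λ : ℝ} (hΛ : 0 ≤ Λ) (hf : ∀ x y, |f x - f y| ≤ Λ * ‖x - y‖)
    {ϵ : ℝ} (hϵ : 0 < ϵ) :
    ∃ K : X → ℝ, ContDiff ℝ k K ∧ (∀ x y, |K x - K y| ≤ Cr * Λ * ‖x - y‖) ∧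
      ∀ x, |f x - K x| < ϵ := by
  -- continuity of `f`
  have hfc : Continuous f := by
    have : LipschitzWith (Real.toNNReal Λ) f := LipschitzWith.of_dist_le_mul fun x y => by
      rw [Real.coe_toNNReal _ hΛ, Real.dist_eq, dist_eq_norm]; exact hf x y
    exact this.continuous
  set a : ℝ := min (ϵ / 8) (1 / 8) with ha
  have ha0 : 0 < a := lt_min (by positivity) (by norm_num)
  have ha1 : a ≤ ϵ / 8 := min_le_left _ _
  have ha2 : a ≤ 1 / 8 := min_le_right _ _
  set B : ℤ → ℝ := fun m => m - a * Real.arctan m with hB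
  set e : ℤ → ℝ := fun m => a * (Real.arctan (m + 1) - Real.arctan m) / 8 with he
  have he0 : ∀ m, 0 < e m := fun m => by
    have : Real.arctan (m : ℝ) < Real.arctan (m + 1) := Real.arctan_strictMono (by linarith)
    have h2 : 0 < Real.arctan ((m : ℝ) + 1) - Real.arctan m := by linarith
    simp only [he]; positivity
  have hpi : Real.pi < 4 := Real.pi_lt_four
  have he1 : ∀ m, e m ≤ a / 2 := fun m => by
    have h1 := Real.arctan_lt_pi_div_two ((m : ℝ) + 1)
    have h2 := Real.neg_pi_div_two_lt_arctan (m : ℝ)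
    have h3 : Real.arctan ((m : ℝ) + 1) - Real.arctan m ≤ 4 := by linarith
    simp only [he]
    nlinarith
  have he4 : ∀ m, e m < 1 / 4 := fun m => by linarith [he1 m]
  have hBs : ∀ m, B (m + 1) = B m + (1 - 8 * e m) := fun m => by
    simp only [hB, he]; push_cast; ring
  have hBm : ∀ m, |B m - m| ≤ 2 * a := fun m => by
    have h1 := Real.arctan_lt_pi_div_two (m : ℝ)
    have h2 := Real.neg_pi_div_two_lt_arctan (m : ℝ)
    have h3 : |Real.arctan (m : ℝ)| ≤ 2 := abs_le.2 ⟨by linarith, by linarith⟩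
    simp only [hB]
    rw [sub_sub_cancel_left, abs_neg, abs_mul, abs_of_pos ha0]
    nlinarith
  -- the pieces
  set φ : ℤ → X → ℝ := fun m x => max 0 (min 1 (f x - m)) with hφ
  have hφl : ∀ m x y, |φ m x - φ m y| ≤ Λ * ‖x - y‖ := by
    intro m x y
    simp only [hφ]
    refine (clamp_lip _ _).trans ?_
    rw [sub_sub_sub_cancel_right]
    exact hf x y
  choose κ hkk hk2 hk3 using fun m : ℤ => hstar (1 + e m) (by linarith [he0 m]) (φ m) Λ hΛ
    (hφl m) (e m) (he0 m)
  set G : ℤ → X → ℝ := fun m x => B m + (1 - 8 * e m) * sstep (e m) (he0 m) (κ m x) with hG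
  have hcoef : ∀ m, 0 ≤ 1 - 8 * e m := fun m => by linarith [he1 m]
  have hGc : ∀ m, ContDiff ℝ k (G m) := fun m =>
    contDiff_const.add (contDiff_const.mul (((sstep_contDiff (he0 m)).of_le hk).comp (hkk m)))
  have hGl : ∀ m x y, |G m x - G m y| ≤ Cr * Λ * ‖x - y‖ := by
    intro m x y
    have h1 := sstep_lip (he0 m) (he4 m) (κ m x) (κ m y)
    have h2 := hk2 m x y
    have h4 : 0 < 1 - 4 * e m := by linarith [he4 m]
    have h0 := he0 m
    have hn : 0 ≤ Cr * Λ * ‖x - y‖ := by positivity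
    have h5 : G m x - G m y = (1 - 8 * e m) *
        (sstep (e m) (he0 m) (κ m x) - sstep (e m) (he0 m) (κ m y)) := by
      simp only [hG]; ring
    rw [h5, abs_mul, abs_of_nonneg (hcoef m)]
    calc (1 - 8 * e m) * |sstep (e m) (he0 m) (κ m x) - sstep (e m) (he0 m) (κ m y)|
        ≤ (1 - 8 * e m) * ((1 - 4 * e m)⁻¹ * ((1 + e m) * (Cr * Λ) * ‖x - y‖)) := by
          refine mul_le_mul_of_nonneg_left (h1.trans ?_) (hcoef m)
          gcongr
      _ = ((1 - 8 * e m) * (1 + e m) * (1 - 4 * e m)⁻¹) * (Cr * Λ * ‖x - y‖) := by ring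
      _ ≤ 1 * (Cr * Λ * ‖x - y‖) := by
          refine mul_le_mul_of_nonneg_right ?_ hn
          rw [← div_eq_mul_inv, div_le_one h4]
          nlinarith
      _ = Cr * Λ * ‖x - y‖ := one_mul _
  -- near the ends the pieces are constant
  have hlow : ∀ (m : ℤ) x, f x ≤ m → ∀ᶠ y in 𝓝 x, G m y = B m := by
    intro m x hx
    have h1 : φ m x = 0 := by
      simp only [hφ]
      exact max_eq_left ((min_le_right _ _).trans (by linarith))
    have h2 := hk3 m x
    rw [h1, zero_sub, abs_neg, abs_lt] at h2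
    filter_upwards [(hkk m).continuous.continuousAt.eventually_lt continuousAt_const h2.2] with y hy
    simp only [hG]
    rw [sstep_eq_zero (he0 m) (he4 m) hy.le, mul_zero, add_zero]
  have hhigh : ∀ (m : ℤ) x, (m : ℝ) + 1 ≤ f x → ∀ᶠ y in 𝓝 x, G m y = B (m + 1) := by
    intro m x hx
    have h1 : φ m x = 1 := by
      simp only [hφ]
      rw [min_eq_left (by linarith), max_eq_right zero_le_one]
    have h2 := hk3 m x
    rw [h1, abs_lt] at h2
    have h3 : 1 - e m < κ m x := by linarith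
    filter_upwards [continuousAt_const.eventually_lt (hkk m).continuous.continuousAt h3] with y hy
    simp only [hG]
    rw [sstep_eq_one (he0 m) (he4 m) hy.le, mul_one, hBs]
  -- the glued function
  set K : X → ℝ := fun x => G ⌊f x⌋ x with hK
  have hloc : ∀ x, ∃ m, K =ᶠ[𝓝 x] G m := by
    intro x
    set m : ℤ := ⌊f x⌋ with hm
    have hm1 : (m : ℝ) ≤ f x := Int.floor_le _
    have hm2 : f x < m + 1 := Int.lt_floor_add_one _
    refine ⟨m, ?_⟩
    rcases eq_or_lt_of_le hm1 with h | h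
    · -- an integer level
      have h1 := hlow m x h.symm.le
      have h2 := hhigh (m - 1) x (by push_cast; linarith)
      have h3 : ∀ᶠ y in 𝓝 x, f y < m + 1 :=
        hfc.continuousAt.eventually_lt continuousAt_const hm2
      have h4 : ∀ᶠ y in 𝓝 x, (m : ℝ) - 1 < f y :=
        continuousAt_const.eventually_lt hfc.continuousAt (by linarith)
      filter_upwards [h1, h2, h3, h4] with y hy1 hy2 hy3 hy4
      rw [sub_add_cancel] at hy2
      simp only [hK]
      rcases lt_or_ge (f y) m with h5 | h5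
      · have h6 : ⌊f y⌋ = m - 1 := by
          rw [Int.floor_eq_iff]; push_cast; exact ⟨hy4.le, by linarith⟩
        rw [h6, hy2, hy1]
      · have h6 : ⌊f y⌋ = m := by
          rw [Int.floor_eq_iff]; exact ⟨h5, hy3⟩
        rw [h6]
    · have h3 : ∀ᶠ y in 𝓝 x, f y < m + 1 :=
        hfc.continuousAt.eventually_lt continuousAt_const hm2
      have h4 : ∀ᶠ y in 𝓝 x, (m : ℝ) < f y :=
        continuousAt_const.eventually_lt hfc.continuousAt h
      filter_upwards [h3, h4] with y hy3 hy4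
      simp only [hK]
      have h6 : ⌊f y⌋ = m := by
        rw [Int.floor_eq_iff]; exact ⟨hy4.le, hy3⟩
      rw [h6]
  have hKc : ContDiff ℝ k K := by
    rw [contDiff_iff_contDiffAt]
    intro x
    obtain ⟨m, hm⟩ := hloc x
    exact ((hGc m).contDiffAt).congr_of_eventuallyEq hm
  have hKd : ∀ x, ‖fderiv ℝ K x‖ ≤ Cr * Λ := by
    intro x
    obtain ⟨m, hm⟩ := hloc x
    rw [hm.fderiv_eq]
    have hCΛ : 0 ≤ Cr * Λ := mul_nonneg hCr hΛ
    refine norm_fderiv_le_of_lipschitz ℝ (C := Real.toNNReal (Cr * Λ)) ?_ |>.trans_eq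
      (Real.coe_toNNReal _ hCΛ)
    exact LipschitzWith.of_dist_le_mul fun x y => by
      rw [Real.coe_toNNReal _ hCΛ, Real.dist_eq, dist_eq_norm]; exact hGl m x y
  refine ⟨K, hKc, fun x y => ?_, fun x => ?_⟩
  · have h1 := Convex.norm_image_sub_le_of_norm_fderiv_le (𝕜 := ℝ) (s := univ) (x := y) (y := x)
      (C := Cr * Λ) (f := K) (fun z _ => (hKc.differentiable (by rintro rfl; simp at hk1)).differentiableAt)
      (fun z _ => hKd z) convex_univ (mem_univ _) (mem_univ _)
    rwa [Real.norm_eq_abs] at h1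
  · set m : ℤ := ⌊f x⌋ with hm
    have hm1 : (m : ℝ) ≤ f x := Int.floor_le _
    have hm2 : f x < m + 1 := Int.lt_floor_add_one _
    have h1 : φ m x = f x - m := by
      simp only [hφ]
      rw [min_eq_right (by linarith), max_eq_right (by linarith)]
    have h2 := hk3 m x
    rw [h1] at h2
    have h2' := abs_lt.1 h2
    have h3 := sstep_close (he0 m) (he4 m) (t := κ m x) (by linarith) (by linarith)
    have h4 := hBm m
    have h5 := he1 m
    have h6 := sstep_nonneg (he0 m) (he4 m) (κ m x)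
    have h7 := sstep_le_one (he0 m) (he4 m) (κ m x)
    have h0 := he0 m
    have h8 : K x = B m + (1 - 8 * e m) * sstep (e m) (he0 m) (κ m x) := rfl
    rw [h8]
    have h3' := abs_le.1 h3
    have h4' := abs_le.1 h4
    rw [abs_lt]
    constructor
    · nlinarith
    · nlinarith

end Pool.Agent.Helper94.SR
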