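import Pool.Agent.Helper94.SR.Embed
import Pool.Agent.Helper94.SR.One
import Pool.Agent.Helper94.CZ.Basic

/-! The final form, for countably directed systems of projections with separable ranges. -/

open scoped ZeroAtInfty ContDiff NNReal
open Set Filter Topology

namespace Pool.Agent.Helper94.SR

open Pool.Agent.Helper94.UF

set_option linter.unusedSectionVars false

/-- Boundedness from the essential properties. -/
theorem bdd_of {X : Type*} [NormedAddCommGroup X] [NormedSpace ℝ X] {ι : Type*} [Preorder ι]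
    (hdir : ∀ s t : ι, ∃ u, s ≤ u ∧ t ≤ u) (P : ι → X →L[ℝ] X)
    (hP : ∀ s t, s ≤ t → ∀ x, P s (P t x) = P s x) {C : ℝ}
    (hP' : ∀ s t, s ≤ t → ∀ x, P t (P s x) = P s x)
    (hC : ∀ s t, s ≤ t → ∀ x, ‖P t x - P s x‖ ≤ C * ‖x‖)
    (hdense : ∀ (x : X) (ε : ℝ), 0 < ε → ∃ s, ‖x - P s x‖ ≤ ε) (s : ι) (x : X) :
    ‖P s x‖ ≤ (1 + |C|) * ‖x‖ := by
  refine le_of_forall_pos_le_add fun ε hε => ?_
  have hC1 : 0 < 1 + |C| := by positivity
  obtain ⟨s₁, h1⟩ := hdense x (ε / (1 + |C|)) (by positivity)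
  obtain ⟨t, hst, hs1t⟩ := hdir s s₁
  set w : X := x - P s₁ x with hw
  have h2 : P s₁ w = 0 := by rw [hw, map_sub, hP _ _ le_rfl, sub_self]
  have h3 : x - P t x = w - (P t w - P s₁ w) := by
    rw [h2, sub_zero, hw, map_sub, hP' _ _ hs1t]; abel
  have habs : ∀ y : X, C * ‖y‖ ≤ |C| * ‖y‖ := fun y =>
    mul_le_mul_of_nonneg_right (le_abs_self C) (norm_nonneg y)
  have h4 : ‖x - P t x‖ ≤ ε := by
    rw [h3]
    calc ‖w - (P t w - P s₁ w)‖ ≤ ‖w‖ + ‖P t w - P s₁ w‖ := norm_sub_le _ _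
      _ ≤ ‖w‖ + |C| * ‖w‖ := by gcongr; exact (hC _ _ hs1t w).trans (habs w)
      _ = (1 + |C|) * ‖w‖ := by ring
      _ ≤ (1 + |C|) * (ε / (1 + |C|)) := by gcongr
      _ = ε := by field_simp
  have h5 : P s x = x - (x - P t x) - (P t x - P s x) := by abel
  rw [h5]
  calc ‖x - (x - P t x) - (P t x - P s x)‖ ≤ ‖x - (x - P t x)‖ + ‖P t x - P s x‖ :=
        norm_sub_le _ _
    _ ≤ (‖x‖ + ‖x - P t x‖) + ‖P t x - P s x‖ := by gcongr; exact norm_sub_le _ _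
    _ ≤ (‖x‖ + ε) + |C| * ‖x‖ := by
        gcongr
        exact (hC _ _ hst x).trans (habs x)
    _ = (1 + |C|) * ‖x‖ + ε := by ring

/-- Simultaneous approximation, from separable ranges and countable directedness. -/
theorem near_of {X : Type*} [NormedAddCommGroup X] [NormedSpace ℝ X] {ι : Type*} [Preorder ι]
    (hdir : ∀ u : ℕ → ι, ∃ t, ∀ n, u n ≤ t) (P : ι → X →L[ℝ] X)
    (hP' : ∀ s t, s ≤ t → ∀ x, P t (P s x) = P s x) {C : ℝ} (hC1 : 1 ≤ C)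
    (hC : ∀ s x, ‖P s x‖ ≤ C * ‖x‖)
    (hsep : ∀ s, TopologicalSpace.IsSeparable (Set.range (P s)))
    (hdense : ∀ (x : X) (ε : ℝ), 0 < ε → ∃ s, ‖x - P s x‖ ≤ ε)
    (B : ι) (Θ : Set X) (ε : ℝ) (hε : 0 < ε) : ∃ B' : ι, B ≤ B' ∧
    ∀ x ∈ Θ, ∃ x' ∈ Θ, ‖P B x - P B x'‖ ≤ ε ∧ ‖x' - P B' x'‖ ≤ ε := by
  have htail : ∀ x : X, ∃ t : ι, ∀ t', t ≤ t' → ‖x - P t' x‖ ≤ ε := by
    intro x
    obtain ⟨t, ht⟩ := hdense x (ε / (1 + C)) (by positivity)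
    refine ⟨t, fun t' htt => ?_⟩
    have h1 : x - P t' x = (x - P t x) - P t' (x - P t x) := by
      rw [map_sub, hP' _ _ htt]; abel
    rw [h1]
    calc ‖(x - P t x) - P t' (x - P t x)‖ ≤ ‖x - P t x‖ + ‖P t' (x - P t x)‖ := norm_sub_le _ _
      _ ≤ ‖x - P t x‖ + C * ‖x - P t x‖ := by gcongr; exact hC _ _
      _ = (1 + C) * ‖x - P t x‖ := by ring
      _ ≤ (1 + C) * (ε / (1 + C)) := by gcongr
      _ = ε := by field_simp
  have hs : TopologicalSpace.IsSeparable (P B '' Θ) :=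
    (hsep B).mono (image_subset_range _ _)
  obtain ⟨D, hDs, hDc, hDd⟩ := hs.exists_countable_dense_subset
  rcases D.eq_empty_or_nonempty with hD0 | hDn
  · refine ⟨B, le_rfl, fun x hx => ?_⟩
    have h1 : P B x ∈ closure D := hDd ⟨x, hx, rfl⟩
    rw [hD0, closure_empty] at h1
    exact absurd h1 (notMem_empty _)
  · obtain ⟨d, hd⟩ := hDc.exists_eq_range hDn
    have hg : ∀ n, ∃ x' ∈ Θ, P B x' = d n := fun n => by
      have : d n ∈ D := by rw [hd]; exact mem_range_self n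
      exact hDs this
    choose g hgΘ hgP using hg
    choose t ht using fun n => htail (g n)
    obtain ⟨B', hB'⟩ := hdir fun n => Nat.casesOn n B t
    have hBB : B ≤ B' := hB' 0
    refine ⟨B', hBB, fun x hx => ?_⟩
    have h1 : P B x ∈ closure D := hDd ⟨x, hx, rfl⟩
    obtain ⟨y, hy, hxy⟩ := Metric.mem_closure_iff.1 h1 ε hε
    rw [hd] at hy
    obtain ⟨n, rfl⟩ := hy
    refine ⟨g n, hgΘ n, ?_, ht n B' (hB' (n + 1))⟩
    rw [hgP n, ← dist_eq_norm]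
    exact hxy.le

/-- The embedding data from a map into `c_0(Γ)`. -/
noncomputable def ekOf {Y Γ : Type*} [NormedAddCommGroup Y] [NormedSpace ℝ Y]
    [TopologicalSpace Γ] [DiscreteTopology Γ] (k : WithTop ℕ∞) (Φ : Y → C₀(Γ, ℝ))
    (hΦ : ∀ γ, ContDiff ℝ k fun y => Φ y γ) (c L₀ : ℝ) (hc : 0 < c)
    (hlow : ∀ x y, c * ‖x - y‖ ≤ ‖Φ x - Φ y‖) (hup : ∀ x y, ‖Φ x - Φ y‖ ≤ L₀ * ‖x - y‖) :
    EK k Y Γ where
  Φ := fun x γ => Φ x γ
  isC0 := fun x _ ht => Pool.Agent.Helper94.CZ.finite_lt (Φ x) ht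
  smooth := hΦ
  L := max 1 L₀
  L0 := lt_of_lt_of_le one_pos (le_max_left _ _)
  upper := fun x y γ => by
    have h1 := Pool.Agent.Helper94.CZ.abs_le_norm (Φ x - Φ y) γ
    rw [ZeroAtInftyContinuousMap.sub_apply] at h1
    exact h1.trans ((hup x y).trans
      (mul_le_mul_of_nonneg_right (le_max_right _ _) (norm_nonneg _)))
  c := c
  c0 := hc
  lower := fun x y r hr h => (hlow x y).trans
    (Pool.Agent.Helper94.CZ.norm_le_of _ hr fun γ => by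
      rw [ZeroAtInftyContinuousMap.sub_apply]; exact h γ)

/-- The conclusion, for a space with a directed system. -/
theorem conclusion {X Y Γ ι : Type*} [NormedAddCommGroup X] [NormedSpace ℝ X]
    [NormedAddCommGroup Y] [NormedSpace ℝ Y] [Preorder ι] [IsDirectedOrder ι] [Nonempty ι]
    (k : ℕ∞) (hk : 1 ≤ k) (E : SPS X ι) {Cr : ℝ≥0} (hCr : 1 ≤ Cr)
    (hR : RangeStar (k : WithTop ℕ∞) E.P Cr) (K : EK (k : WithTop ℕ∞) Y Γ)
    (T : Y →L[ℝ] X) (c' : ℝ) (hc' : 0 < c') (hT : ∀ y, c' * ‖y‖ ≤ ‖T y‖)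
    (f : Y → ℝ) (L : ℝ≥0) (hf : LipschitzWith L f) (ε : ℝ) (hε : 0 < ε) :
    ∃ K : Y → ℝ, ContDiff ℝ k K ∧ LipschitzWith (Cr * L) K ∧ ∀ y, |f y - K y| < ε := by
  have hf' : ∀ x y, |f x - f y| ≤ (L : ℝ) * ‖x - y‖ := fun x y => by
    have := hf.dist_le_mul x y
    rwa [Real.dist_eq, dist_eq_norm] at this
  have hk' : (k : WithTop ℕ∞) ≤ ∞ := by exact_mod_cast le_top
  have hk1 : (1 : WithTop ℕ∞) ≤ (k : WithTop ℕ∞) := by exact_mod_cast hk
  have hCr' : (1 : ℝ) ≤ Cr := by exact_mod_cast hCr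
  obtain ⟨h, h1, h2, h3⟩ := star_const hk' hk1 (Cr := Cr) (zero_le_one.trans hCr')
    (fun C₀ hC₀ g Λ hΛ hg ϵ hϵ =>
      SR.star_of_embedding E hCr' hR K hk' T hc' hT hC₀ hΛ hg hϵ)
    L.2 hf' hε
  refine ⟨h, h1, LipschitzWith.of_dist_le_mul fun x y => ?_, h3⟩
  rw [Real.dist_eq, dist_eq_norm]
  exact h2 x y

end Pool.Agent.Helper94.SR
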