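import Pool.Agent.Helper94.SR.Jump2

/-! The smooth averaged map. -/

open scoped ContDiff
open Set Filter Topology MeasureTheory

namespace Pool.Agent.Helper94.SR

open Pool.Agent.Helper94.UF

set_option linter.unusedSectionVars false

variable {Γ : Type*} {X : Type*} [NormedAddCommGroup X] [NormedSpace ℝ X] {ι : Type*}
  [Preorder ι] {Y : Type*} [NormedAddCommGroup Y] [NormedSpace ℝ Y] {T : Y →L[ℝ] X}
  {k : WithTop ℕ∞} {E : SPS X ι} {K : EK k Y Γ} {p : Seminorm ℝ X} {M ε : ℝ}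
variable (D : Fam E K T p ε) {δ L : ℝ}

/-- The finite set of codes seen by the smooth map. -/
noncomputable def Sc (K : EK k Y Γ) (δ : ℝ) (x : Y) : Finset (Cd Γ) :=
  (code (7 / 8 * δ) (K.Φ x)).powerset

/-- The smooth averaged map. -/
noncomputable def Ft (hδ : 0 < δ) (L : ℝ) (x : Y) : X :=
  ∑ A ∈ Sc K δ x, sm K hδ (wq δ L A) x • G D A (T x)

theorem sm_wq_zero (hδ : 0 < δ) (hL : 0 < L) {x : Y} {A : Cd Γ} (h : A ∉ Sc K δ x) :
    sm K hδ (wq δ L A) x = 0 := by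
  have : ∀ z : Γ → ℝ, wq δ L A (ph (K.Φ x) (δ / 16) (Gx K hδ x) z) = 0 := fun z =>
    wq_zero_of_notMem hδ hL (isC0_ph (K.isC0 x) _ _ _) (cu_ph_sub hδ x _ z) h
  rw [sm]
  simp [this]

theorem Ft_eq (hδ : 0 < δ) (hL : 0 < L) {x : Y} {𝒜 : Finset (Cd Γ)} (h𝒜 : Sc K δ x ⊆ 𝒜) :
    Ft D hδ L x = ∑ A ∈ 𝒜, sm K hδ (wq δ L A) x • G D A (T x) := by
  rw [Ft]
  refine Finset.sum_subset h𝒜 fun A _ hA => ?_
  rw [sm_wq_zero hδ hL hA, zero_smul]

theorem Ft_supp (hδ : 0 < δ) {x : Y} {s : ι}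
    (hs : D.S D.m (code (7 / 8 * δ) (K.Φ x)) ≤ s) :
    E.P s (Ft D hδ L x) = Ft D hδ L x := by
  rw [Ft, map_sum]
  refine Finset.sum_congr rfl fun A hA => ?_
  rw [map_smul, P_G D ((D.mono_A (Finset.mem_powerset.1 hA) le_rfl).trans hs)]

section
variable (ψ : X →ₗ[ℝ] ℝ)

theorem psi_F (hδ : 0 < δ) (hL : 0 < L) (x : Y) (G₀ : Finset Γ) (z : Γ → ℝ) :
    ψ (F D δ L (ph (K.Φ x) (δ / 16) G₀ z) (T x)) =
      ∑ A ∈ Sc K δ x, wq δ L A (ph (K.Φ x) (δ / 16) G₀ z) * ψ (G D A (T x)) := by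
  rw [F_eq D hδ hL (isC0_ph (K.isC0 x) _ _ _)
    (Finset.powerset_mono.2 (cu_ph_sub hδ x G₀ z)), map_sum]
  refine Finset.sum_congr rfl fun A _ => ?_
  rw [map_smul, smul_eq_mul]

theorem psi_F_integrable (hδ : 0 < δ) (hL : 0 < L) (x : Y) (G₀ : Finset Γ) {η : ℝ} {hη : 0 < η} :
    Integrable (fun z => ψ (F D δ L (ph (K.Φ x) (δ / 16) G₀ z) (T x))) (nu Γ η hη) := by
  simp only [psi_F D ψ hδ hL]
  exact integrable_finsetSum _ fun A _ =>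
    ((tame_wq hδ hL A).integrable (K.isC0 x) _ G₀).mul_const _

theorem psi_Ft (hδ : 0 < δ) (hL : 0 < L) {x : Y} {G₀ : Finset Γ} (hG : Gx K hδ x ⊆ G₀) :
    ψ (Ft D hδ L x) =
      ∫ z, ψ (F D δ L (ph (K.Φ x) (δ / 16) G₀ z) (T x)) ∂(nu Γ (δ / 16) (by positivity)) := by
  simp only [psi_F D ψ hδ hL]
  rw [integral_finsetSum _ fun A _ =>
    ((tame_wq hδ hL A).integrable (K.isC0 x) _ G₀).mul_const _]
  unfold Ft
  rw [map_sum]
  refine Finset.sum_congr rfl fun A _ => ?_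
  rw [map_smul, smul_eq_mul, integral_mul_const, sm_eq K hδ (tame_wq hδ hL A) hG]

end

theorem Ft_lip (hδ : 0 < δ) (hL : 0 < L) {x y : Y} {R : ℝ}
    (h : ∀ (G₀ : Finset Γ) (z : Γ → ℝ), p (F D δ L (ph (K.Φ x) (δ / 16) G₀ z) (T x) -
      F D δ L (ph (K.Φ y) (δ / 16) G₀ z) (T y)) ≤ R) : p (Ft D hδ L x - Ft D hδ L y) ≤ R := by
  classical
  obtain ⟨ψ, h1, h2⟩ := exists_norming p (Ft D hδ L x - Ft D hδ L y)
  set G₀ : Finset Γ := Gx K hδ x ∪ Gx K hδ y with hG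
  rw [← h1, map_sub, psi_Ft D ψ hδ hL (G₀ := G₀) Finset.subset_union_left,
    psi_Ft D ψ hδ hL (G₀ := G₀) Finset.subset_union_right,
    ← integral_sub (psi_F_integrable D ψ hδ hL x G₀) (psi_F_integrable D ψ hδ hL y G₀)]
  have h3 : ∫ z, (ψ (F D δ L (ph (K.Φ x) (δ / 16) G₀ z) (T x)) -
      ψ (F D δ L (ph (K.Φ y) (δ / 16) G₀ z) (T y))) ∂(nu Γ (δ / 16) (by positivity)) ≤
      ∫ _z : Γ → ℝ, R ∂(nu Γ (δ / 16) (by positivity)) := by
    refine integral_mono ((psi_F_integrable D ψ hδ hL x G₀).sub (psi_F_integrable D ψ hδ hL y G₀))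
      (integrable_const _) fun z => ?_
    change ψ (F D δ L (ph (K.Φ x) (δ / 16) G₀ z) (T x)) -
      ψ (F D δ L (ph (K.Φ y) (δ / 16) G₀ z) (T y)) ≤ R
    rw [← map_sub]
    exact (h2 _).trans (h G₀ z)
  simpa using h3

theorem Ft_close (hδ : 0 < δ) (hL : 0 < L) (hδL : δ * Real.exp L < 1) (x : Y) :
    ‖Ft D hδ L x - T x‖ ≤ C3 E K T * (δ * Real.exp L) := by
  obtain ⟨ψ, h1, h2⟩ := exists_norming (normSeminorm ℝ X) (Ft D hδ L x - T x)
  have h8 : (normSeminorm ℝ X) (Ft D hδ L x - T x) = ‖Ft D hδ L x - T x‖ := rfl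
  rw [← h8, ← h1, map_sub, psi_Ft D ψ hδ hL (G₀ := Gx K hδ x) subset_rfl]
  have h3 : ∫ z, ψ (F D δ L (ph (K.Φ x) (δ / 16) (Gx K hδ x) z) (T x))
      ∂(nu Γ (δ / 16) (by positivity)) ≤
      ∫ _z : Γ → ℝ, (ψ (T x) + C3 E K T * (δ * Real.exp L)) ∂(nu Γ (δ / 16) (by positivity)) := by
    refine integral_mono (psi_F_integrable D ψ hδ hL x _) (integrable_const _) fun z => ?_
    have h4 := F_close D (x := x) hδ hL (isC0_ph (K.isC0 x) (δ / 16) (Gx K hδ x) z) hδL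
      fun γ => by
        rw [abs_sub_comm]
        exact (ph_sub_le (by positivity) _ z γ).trans (by linarith)
    have h5 := h2 (F D δ L (ph (K.Φ x) (δ / 16) (Gx K hδ x) z) (T x) - T x)
    rw [map_sub] at h5
    have h6 : (normSeminorm ℝ X) (F D δ L (ph (K.Φ x) (δ / 16) (Gx K hδ x) z) (T x) - T x) =
      ‖F D δ L (ph (K.Φ x) (δ / 16) (Gx K hδ x) z) (T x) - T x‖ := rfl
    rw [h6] at h5
    change ψ (F D δ L (ph (K.Φ x) (δ / 16) (Gx K hδ x) z) (T x)) ≤ ψ (T x) + C3 E K T * (δ * Real.exp L)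
    linarith
  have h7 : ∫ _z : Γ → ℝ, (ψ (T x) + C3 E K T * (δ * Real.exp L)) ∂(nu Γ (δ / 16) (by positivity)) =
      ψ (T x) + C3 E K T * (δ * Real.exp L) := by simp
  rw [h7] at h3
  linarith

theorem Ft_contDiff (hδ : 0 < δ) (hL : 0 < L) (hk : k ≤ ∞) : ContDiff ℝ k (Ft D hδ L) := by
  rw [contDiff_iff_contDiffAt]
  intro x0
  set 𝒜 : Finset (Cd Γ) := (code (1 / 2 * δ) (K.Φ x0)).powerset with h𝒜
  have h1 : ContDiff ℝ k fun x : Y => ∑ A ∈ 𝒜, sm K hδ (wq δ L A) x • G D A (T x) :=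
    ContDiff.sum fun A _ => (sm_contDiff K hδ hk (tame_wq hδ hL A)).smul ((G D A).contDiff.comp T.contDiff)
  refine (h1.contDiffAt (x := x0)).congr_of_eventuallyEq ?_
  have hKL := K.L0
  filter_upwards [Metric.closedBall_mem_nhds x0 (show 0 < δ / (32 * K.L) by positivity)] with x hx
  have hx' : ‖x - x0‖ ≤ δ / (32 * K.L) := by rwa [mem_closedBall_iff_norm] at hx
  refine Ft_eq D hδ hL ?_
  refine Finset.powerset_mono.2 ?_
  have h2 : code (1 / 2 * δ + 3 / 8 * δ) (K.Φ x) ⊆ code (1 / 2 * δ) (K.Φ x0) :=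
    code_close (K.isC0 x) (K.isC0 x0) (by positivity) (by positivity) fun γ =>
      (near_close hδ hx' γ).trans (by linarith)
  have e : 1 / 2 * δ + 3 / 8 * δ = 7 / 8 * δ := by ring
  rwa [e] at h2

end Pool.Agent.Helper94.SR
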