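import Pool.Agent.Helper94.SR.Moll
import Pool.Agent.Helper94.UF.Glue

/-! Gluing the approximations on the finite-dimensional ranges. -/

open scoped ContDiff
open Set Filter Topology MeasureTheory

namespace Pool.Agent.Helper94.SR

open Pool.Agent.Helper94.UF

set_option linter.unusedSectionVars false

variable {Γ : Type*} {X : Type*} [NormedAddCommGroup X] [NormedSpace ℝ X] {ι : Type*}
  [Preorder ι] {Y : Type*} [NormedAddCommGroup Y] [NormedSpace ℝ Y] {T : Y →L[ℝ] X}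
variable {k : WithTop ℕ∞} {E : SPS X ι} {K : EK k Y Γ} {p : Seminorm ℝ X} {M ε : ℝ}

section inner

variable {δ : ℝ} (g : Cd Γ → X → ℝ)

variable (D : Fam E K T p ε) {f : X → ℝ} {Λ c : ℝ}

theorem inner_bound (hδ : 0 < δ) (_hΛ : 0 ≤ Λ) (hc : 0 ≤ c)
    (hf : ∀ x y, |f x - f y| ≤ Λ * p (x - y))
    (hg1 : ∀ A y y', |g A y - g A y'| ≤ Λ * p (E.P (D.S D.m A) y - E.P (D.S D.m A) y'))
    (hg2 : ∀ A y, |g A y - f (E.P (D.S D.m A) y)| ≤ c * (1 / 2) ^ A.card)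
    {𝒜 : Finset (Cd Γ)} {φ φ' : Γ → ℝ} (hφ : IsC0 φ) (hφ' : IsC0 φ') {τ : ℝ}
    (hτ : 0 ≤ τ) (h : ∀ γ, |φ γ - φ' γ| ≤ τ) (hτδ : τ ≤ δ * Real.exp (-3)) {y y' : X}
    (hy : ∀ v ∈ Icc (-2 : ℝ) (-1), E.P (D.S D.m (cu δ φ v)) y = y)
    (hy' : ∀ v ∈ Icc (-2 : ℝ) (-1), E.P (D.S D.m (cu δ φ' v)) y' = y')
    (h𝒜 : ∀ v ∈ Icc (-2 : ℝ) (-1), cu δ φ v ∈ 𝒜) (h𝒜' : ∀ v ∈ Icc (-2 : ℝ) (-1), cu δ φ' v ∈ 𝒜) :
    |(∫ v in (-2 : ℝ)..(-1), sv g δ 𝒜 φ y v) - ∫ v in (-2 : ℝ)..(-1), sv g δ 𝒜 φ' y' v| ≤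
      Λ * p (y - y') + 8 * c * (τ / (δ * Real.exp (-3))) := by
  set κ : ℝ := τ / (δ * Real.exp (-3)) with hκ
  have hκ0 : 0 ≤ κ := by positivity
  have hκ1 : κ ≤ 1 := by rw [hκ, div_le_one (by positivity)]; exact hτδ
  have hτκ : τ = δ * Real.exp (-3) * κ := by rw [hκ]; field_simp
  have h' : ∀ γ, |φ' γ - φ γ| ≤ τ := fun γ => by rw [abs_sub_comm]; exact h γ
  rw [← intervalIntegral.integral_sub (sv_integrable g hδ 𝒜 hφ y _ _)
    (sv_integrable g hδ 𝒜 hφ' y' _ _)]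
  set bd : ℝ → ℝ := fun v => Λ * p (y - y') + (2 * c * (Gc δ φ (v + κ) - Gc δ φ (v - κ)) +
    2 * c * (Gc δ φ' (v + κ) - Gc δ φ' (v - κ))) with hbd
  have hint : ∀ {φ : Γ → ℝ}, IsC0 φ → IntervalIntegrable
      (fun v => Gc δ φ (v + κ) - Gc δ φ (v - κ)) volume (-2) (-1) := fun {φ} hφ => by
    have h1 : Monotone fun u => Gc δ φ (u + κ) := fun x y hxy => Gc_mono hδ hφ (by linarith)
    have h2 : Monotone fun u => Gc δ φ (u - κ) := fun x y hxy => Gc_mono hδ hφ (by linarith)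
    exact h1.intervalIntegrable.sub h2.intervalIntegrable
  have hbdint : IntervalIntegrable bd volume (-2) (-1) :=
    intervalIntegrable_const.add (((hint hφ).const_mul (2 * c)).add ((hint hφ').const_mul (2 * c)))
  have hpt : ∀ v ∈ Icc (-2 : ℝ) (-1), |sv g δ 𝒜 φ y v - sv g δ 𝒜 φ' y' v| ≤ bd v := by
    intro v hv
    rw [sv_eq g (h𝒜 v hv), sv_eq g (h𝒜' v hv)]
    have hn1 : 0 ≤ Gc δ φ (v + κ) - Gc δ φ (v - κ) := by
      have := Gc_mono hδ hφ (show v - κ ≤ v + κ by linarith)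
      linarith
    have hn2 : 0 ≤ Gc δ φ' (v + κ) - Gc δ φ' (v - κ) := by
      have := Gc_mono hδ hφ' (show v - κ ≤ v + κ by linarith)
      linarith
    by_cases he : cu δ φ v = cu δ φ' v
    · have h1 := hg1 (cu δ φ v) y y'
      rw [hy v hv, he, hy' v hv] at h1
      rw [he]
      refine h1.trans ?_
      have h2 : 0 ≤ 2 * c * (Gc δ φ (v + κ) - Gc δ φ (v - κ)) := by positivity
      have h3 : 0 ≤ 2 * c * (Gc δ φ' (v + κ) - Gc δ φ' (v - κ)) := by positivity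
      simp only [hbd]
      linarith
    · have hκv : τ ≤ δ * Real.exp (v - κ) * κ := by
        rw [hτκ]
        have : Real.exp (-3) ≤ Real.exp (v - κ) := Real.exp_le_exp.2 (by linarith [hv.1])
        gcongr
      have b1 := Gc_bad hδ hφ hφ' hτ h hκ0 hκv he
      have b2 := Gc_bad hδ hφ' hφ hτ h' hκ0 hκv (Ne.symm he)
      have c1 := hg2 (cu δ φ v) y
      have c2 := hg2 (cu δ φ' v) y'
      rw [hy v hv] at c1
      rw [hy' v hv] at c2
      have c1' : |g (cu δ φ v) y - f y| ≤ c * Gc δ φ v := c1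
      have c2' : |g (cu δ φ' v) y' - f y'| ≤ c * Gc δ φ' v := c2
      have c3 := hf y y'
      have d1 : c * Gc δ φ v ≤ 2 * c * (Gc δ φ (v + κ) - Gc δ φ (v - κ)) := by
        calc c * Gc δ φ v ≤ c * (2 * (Gc δ φ (v + κ) - Gc δ φ (v - κ))) := by gcongr
          _ = _ := by ring
      have d2 : c * Gc δ φ' v ≤ 2 * c * (Gc δ φ' (v + κ) - Gc δ φ' (v - κ)) := by
        calc c * Gc δ φ' v ≤ c * (2 * (Gc δ φ' (v + κ) - Gc δ φ' (v - κ))) := by gcongr
          _ = _ := by ring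
      have e1 : g (cu δ φ v) y - g (cu δ φ' v) y' =
          (g (cu δ φ v) y - f y) + ((f y - f y') - (g (cu δ φ' v) y' - f y')) := by ring
      rw [e1]
      have e2 := abs_add_le (g (cu δ φ v) y - f y) ((f y - f y') - (g (cu δ φ' v) y' - f y'))
      have e3 := abs_sub (f y - f y') (g (cu δ φ' v) y' - f y')
      simp only [hbd]
      linarith
  have hle := intervalIntegral.norm_integral_le_of_norm_le (μ := volume)
    (f := fun v => sv g δ 𝒜 φ y v - sv g δ 𝒜 φ' y' v) (g := bd) (a := -2) (b := -1)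
    (by norm_num) (ae_of_all _ fun v hv => by
      rw [Real.norm_eq_abs]; exact hpt v (Ioc_subset_Icc_self hv)) hbdint
  rw [Real.norm_eq_abs] at hle
  refine hle.trans ?_
  have hI1 := mono_shift (Gc_mono hδ hφ) (Gc_nonneg δ φ) (Gc_le_one δ φ) (a := -2) (b := -1) hκ0
  have hI2 := mono_shift (Gc_mono hδ hφ') (Gc_nonneg δ φ') (Gc_le_one δ φ') (a := -2) (b := -1) hκ0
  have hI : ∫ v in (-2 : ℝ)..(-1), bd v = Λ * p (y - y') +
      (2 * c * (∫ v in (-2 : ℝ)..(-1), (Gc δ φ (v + κ) - Gc δ φ (v - κ))) +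
        2 * c * ∫ v in (-2 : ℝ)..(-1), (Gc δ φ' (v + κ) - Gc δ φ' (v - κ))) := by
    simp only [hbd]
    rw [intervalIntegral.integral_add intervalIntegrable_const
      (((hint hφ).const_mul (2 * c)).add ((hint hφ').const_mul (2 * c))),
      intervalIntegral.integral_add ((hint hφ).const_mul (2 * c)) ((hint hφ').const_mul (2 * c)),
      intervalIntegral.integral_const_mul, intervalIntegral.integral_const_mul,
      intervalIntegral.integral_const]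
    norm_num
  rw [hI]
  have j1 : 2 * c * (∫ v in (-2 : ℝ)..(-1), (Gc δ φ (v + κ) - Gc δ φ (v - κ))) ≤
      2 * c * (2 * κ) := by gcongr
  have j2 : 2 * c * (∫ v in (-2 : ℝ)..(-1), (Gc δ φ' (v + κ) - Gc δ φ' (v - κ))) ≤
      2 * c * (2 * κ) := by gcongr
  linarith

theorem inner_close (hδ : 0 < δ) (hc : 0 ≤ c)
    (hg2 : ∀ A y, |g A y - f (E.P (D.S D.m A) y)| ≤ c * (1 / 2) ^ A.card)
    {𝒜 : Finset (Cd Γ)} {φ : Γ → ℝ} (hφ : IsC0 φ) {y : X}
    (hy : ∀ v ∈ Icc (-2 : ℝ) (-1), E.P (D.S D.m (cu δ φ v)) y = y)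
    (h𝒜 : ∀ v ∈ Icc (-2 : ℝ) (-1), cu δ φ v ∈ 𝒜) :
    |(∫ v in (-2 : ℝ)..(-1), sv g δ 𝒜 φ y v) - f y| ≤ c := by
  have h0 : f y = ∫ _v in (-2 : ℝ)..(-1), f y := by
    rw [intervalIntegral.integral_const]; norm_num
  rw [h0, ← intervalIntegral.integral_sub (sv_integrable g hδ 𝒜 hφ y _ _)
    intervalIntegrable_const]
  have hle := intervalIntegral.norm_integral_le_of_norm_le (μ := volume)
    (f := fun v => sv g δ 𝒜 φ y v - f y) (g := fun _ => c) (a := -2) (b := -1)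
    (by norm_num) (ae_of_all _ fun v hv => by
      have hv' := Ioc_subset_Icc_self hv
      rw [Real.norm_eq_abs, sv_eq g (h𝒜 v hv')]
      have h1 := hg2 (cu δ φ v) y
      rw [hy v hv'] at h1
      refine h1.trans ?_
      have h2 : (1 / 2 : ℝ) ^ (cu δ φ v).card ≤ 1 := pow_le_one₀ (by norm_num) (by norm_num)
      nlinarith) intervalIntegrable_const
  rw [Real.norm_eq_abs, intervalIntegral.integral_const] at hle
  norm_num at hle
  exact hle

end inner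

end Pool.Agent.Helper94.SR
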