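import Pool.Agent.Helper94.SR.Jump

/-! The Lipschitz estimate of the averaged map. -/

open Set Filter Topology MeasureTheory

namespace Pool.Agent.Helper94.SR

open Pool.Agent.Helper94.UF

set_option linter.unusedSectionVars false

variable {Γ : Type*} {X : Type*} [NormedAddCommGroup X] [NormedSpace ℝ X] {ι : Type*}
  [Preorder ι] {Y : Type*} [NormedAddCommGroup Y] [NormedSpace ℝ Y] {T : Y →L[ℝ] X}
  {k : WithTop ℕ∞} {E : SPS X ι} {K : EK k Y Γ} {p : Seminorm ℝ X} {M ε : ℝ}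
variable (D : Fam E K T p ε) {δ : ℝ} {φ φ' : Γ → ℝ}

/-- The mismatch on the `i`-th unit interval of scales. -/
noncomputable def vi (δ : ℝ) (φ φ' : Γ → ℝ) (𝒜 : Finset (Cd Γ)) (i : ℕ) (x : X) : X :=
  ∑ A ∈ 𝒜, (cI δ φ i A - cI δ φ' i A) • G D A x

/-- Near scales, the codes of `φ` are between codes of `φ'`. -/
theorem between (hδ : 0 < δ) (hφ : IsC0 φ) (hφ' : IsC0 φ') {τ : ℝ} (hτ : 0 ≤ τ)
    (h : ∀ γ, |φ γ - φ' γ| ≤ τ) {κ u v : ℝ} (hκ : τ ≤ δ * Real.exp v * κ)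
    (hκ0 : 0 ≤ κ) (hv : v ≤ u - κ) :
    cu δ φ' (u + κ) ⊆ cu δ φ u ∧ cu δ φ u ⊆ cu δ φ' (u - κ) := by
  have h1 : ∀ w, v ≤ w → τ ≤ δ * Real.exp w * κ := fun w hw => by
    have : Real.exp v ≤ Real.exp w := Real.exp_le_exp.2 hw
    exact hκ.trans (by gcongr)
  refine ⟨cu_close hδ hφ hφ' hτ h (h1 u (by linarith)), ?_⟩
  have := cu_close hδ hφ' hφ hτ (fun γ => by rw [abs_sub_comm]; exact h γ) (h1 (u - κ) hv)
  rwa [sub_add_cancel] at this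

section one

variable (hδ : 0 < δ) (hφ : IsC0 φ) (hφ' : IsC0 φ') {τ : ℝ} (hτ : 0 ≤ τ)
  (h : ∀ γ, |φ γ - φ' γ| ≤ τ) (hτδ : τ ≤ δ * Real.exp (-1)) {𝒜 : Finset (Cd Γ)} {i : ℕ}
  (h𝒜 : ∀ v ∈ Icc (i : ℝ) ((i + 1 : ℕ) : ℝ), cu δ φ v ∈ 𝒜)
  (h𝒜' : ∀ v ∈ Icc (i : ℝ) ((i + 1 : ℕ) : ℝ), cu δ φ' v ∈ 𝒜)

include hδ hφ hφ' hτ h hτδ

theorem code_range {v : ℝ} (hv : v ∈ Icc (i : ℝ) ((i + 1 : ℕ) : ℝ)) :
    (cu δ φ' (i + 2) ⊆ cu δ φ v ∧ cu δ φ v ⊆ cu δ φ' (i - 1)) ∧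
      (cu δ φ' (i + 2) ⊆ cu δ φ' v ∧ cu δ φ' v ⊆ cu δ φ' (i - 1)) := by
  obtain ⟨hv1, hv2⟩ := hv
  push_cast at hv2
  have hi : (0 : ℝ) ≤ i := Nat.cast_nonneg i
  have hb := between (u := v) (v := -1) hδ hφ hφ' hτ h (κ := 1) (by rw [mul_one]; exact hτδ)
    zero_le_one (by linarith)
  exact ⟨⟨(cu_anti hδ hφ' (by linarith)).trans hb.1, hb.2.trans (cu_anti hδ hφ' (by linarith))⟩,
    cu_anti hδ hφ' (by linarith), cu_anti hδ hφ' (by linarith)⟩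

theorem coef_zero {A : Cd Γ} (hA : ¬ (cu δ φ' (i + 2) ⊆ A ∧ A ⊆ cu δ φ' (i - 1))) :
    cI δ φ i A - cI δ φ' i A = 0 := by
  have h1 : cI δ φ i A = 0 := cI_zero fun v hv he => hA (by
    rw [← he]; exact (code_range hδ hφ hφ' hτ h hτδ hv).1)
  have h2 : cI δ φ' i A = 0 := cI_zero fun v hv he => hA (by
    rw [← he]; exact (code_range hδ hφ hφ' hτ h hτδ hv).2)
  rw [h1, h2, sub_zero]

theorem P_top_vi (x : X) :
    E.P (D.S D.m (cu δ φ' (i - 1))) (vi D δ φ φ' 𝒜 i x) = vi D δ φ φ' 𝒜 i x := by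
  rw [vi, map_sum]
  refine Finset.sum_congr rfl fun A _ => ?_
  by_cases hA : cu δ φ' (i + 2) ⊆ A ∧ A ⊆ cu δ φ' (i - 1)
  · rw [map_smul, P_G D (D.mono_A hA.2 le_rfl)]
  · rw [coef_zero hδ hφ hφ' hτ h hτδ hA, zero_smul, map_zero]

include h𝒜 h𝒜' in
theorem P_bot_vi (x : X) :
    E.P (D.S 0 (cu δ φ' (i + 2))) (vi D δ φ φ' 𝒜 i x) = 0 := by
  have h1 : E.P (D.S 0 (cu δ φ' (i + 2))) (vi D δ φ φ' 𝒜 i x) =
      ∑ A ∈ 𝒜, (cI δ φ i A - cI δ φ' i A) • E.P (D.S 0 (cu δ φ' (i + 2))) x := by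
    rw [vi, map_sum]
    refine Finset.sum_congr rfl fun A _ => ?_
    by_cases hA : cu δ φ' (i + 2) ⊆ A ∧ A ⊆ cu δ φ' (i - 1)
    · rw [map_smul, P_G_low D (D.mono_A hA.1 (Nat.zero_le _))]
    · rw [coef_zero hδ hφ hφ' hτ h hτδ hA, zero_smul, zero_smul, map_zero]
  rw [h1, ← Finset.sum_smul, Finset.sum_sub_distrib]
  have e1 := sum_cI hδ hφ 𝒜 (fun _ => 1) h𝒜
  have e2 := sum_cI hδ hφ' 𝒜 (fun _ => 1) h𝒜'
  simp only [mul_one] at e1 e2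
  rw [e1, e2, sub_self, zero_smul]

include h𝒜 h𝒜' in
theorem psi_vi (ψ : X →ₗ[ℝ] ℝ) (x : X) : ψ (vi D δ φ φ' 𝒜 i x) =
    ∫ v in (i : ℝ)..((i + 1 : ℕ) : ℝ), (ψ (G D (cu δ φ v) x) - ψ (G D (cu δ φ' v) x)) := by
  have hle : (i : ℝ) ≤ ((i + 1 : ℕ) : ℝ) := by push_cast; linarith
  rw [intervalIntegral.integral_sub
    (code_integrable hδ hφ 𝒜 (fun A => ψ (G D A x)) hle h𝒜)
    (code_integrable hδ hφ' 𝒜 (fun A => ψ (G D A x)) hle h𝒜'),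
    ← sum_cI hδ hφ 𝒜 (fun A => ψ (G D A x)) h𝒜, ← sum_cI hδ hφ' 𝒜 (fun A => ψ (G D A x)) h𝒜',
    ← Finset.sum_sub_distrib, vi, map_sum]
  refine Finset.sum_congr rfl fun A _ => ?_
  rw [map_smul, smul_eq_mul, sub_mul]

include h𝒜 h𝒜' in
theorem norm_vi_le (hδi : δ * Real.exp (i + 2) < 1) {x : Y}
    (hx : ∀ γ, |K.Φ x γ - φ' γ| ≤ δ * Real.exp (-1)) :
    ‖vi D δ φ φ' 𝒜 i (T x)‖ ≤ 16 * Real.exp 3 * E.C * C3 E K T * τ := by
  have hC := E.C0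
  have hC3 := C3_pos E K T
  have hi0 : (0 : ℝ) ≤ i := Nat.cast_nonneg i
  set t1 : ι := D.S D.m (cu δ φ' (i - 1)) with ht1
  set t0 : ι := D.S 0 (cu δ φ' (i + 2)) with ht0
  have hA : cu δ φ' (i + 2) ⊆ cu δ φ' (i - 1) := cu_anti hδ hφ' (by linarith)
  have hsub : t0 ≤ t1 := (D.mono_A hA (Nat.zero_le _)).trans (D.mono_j _ (Nat.zero_le _))
  have hxA : x ∈ XA K (cu δ φ' (i + 2)) :=
    mem_XA K hφ' (by positivity) hδi fun γ => (hx γ).trans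
      (mul_le_mul_of_nonneg_left (Real.exp_le_exp.2 (by linarith)) hδ.le)
  have htl : tlow (cu δ φ' (i + 2)) ≤ δ * Real.exp (i + 2) := tlow_le hφ' (by positivity)
  have hy : ‖E.P t1 (T x) - E.P t0 (T x)‖ ≤ 2 * (C3 E K T * (δ * Real.exp (i + 2))) := by
    have h2 : E.P t1 (T x) - E.P t0 (T x) = (T x - E.P t0 (T x)) - (T x - E.P t1 (T x)) := by abel
    rw [h2]
    have h3 := D.star _ x hxA _ (le_refl t0)
    have h4 := D.star _ x hxA _ hsub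
    calc _ ≤ ‖T x - E.P t0 (T x)‖ + ‖T x - E.P t1 (T x)‖ := norm_sub_le _ _
      _ ≤ C3 E K T * tlow (cu δ φ' (i + 2)) + C3 E K T * tlow (cu δ φ' (i + 2)) := add_le_add h3 h4
      _ ≤ C3 E K T * (δ * Real.exp (i + 2)) + C3 E K T * (δ * Real.exp (i + 2)) := by gcongr
      _ = _ := by ring
  set κ : ℝ := τ / (δ * Real.exp (i - 1)) with hκd
  have hκ0 : 0 ≤ κ := by positivity
  have hκτ : τ = δ * Real.exp (i - 1) * κ := by rw [hκd]; field_simp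
  have hκ1 : κ ≤ 1 := by
    rw [hκd, div_le_one (by positivity)]
    refine hτδ.trans ?_
    gcongr
    linarith
  obtain ⟨ψ, h1, h2⟩ := exists_norming (normSeminorm ℝ X) (vi D δ φ φ' 𝒜 i (T x))
  have hψ : ∀ w, ψ w ≤ ‖w‖ := h2
  have h8 : (normSeminorm ℝ X) (vi D δ φ φ' 𝒜 i (T x)) = ‖vi D δ φ φ' 𝒜 i (T x)‖ := rfl
  rw [← h8, ← h1, psi_vi D hδ hφ hφ' hτ h hτδ h𝒜 h𝒜']
  set H : ℝ → ℝ := fun u => V D ψ (T x) t0 t1 (cu δ φ' u) with hH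
  have hHanti : Antitone H := fun u v huv => V_mono D hψ (T x) t0 t1 (cu_anti hδ hφ' huv)
  have hH0 : ∀ u, 0 ≤ H u := fun u => V_nonneg D hψ (T x) t0 t1 _
  set R : ℝ := 2 * (E.C * (2 * (C3 E K T * (δ * Real.exp (i + 2))))) with hR
  have hHR : ∀ u, H u ≤ R := fun u => (V_le D hψ (T x) t0 t1 _).trans (by rw [hR]; gcongr)
  have hle : (i : ℝ) ≤ ((i + 1 : ℕ) : ℝ) := by push_cast; linarith
  have hp : Antitone fun u => H (u + κ) := fun x y hxy => hHanti (by linarith)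
  have hm : Antitone fun u => H (u - κ) := fun x y hxy => hHanti (by linarith)
  have hpt : ∀ v ∈ Icc (i : ℝ) ((i + 1 : ℕ) : ℝ),
      ψ (G D (cu δ φ v) (T x)) - ψ (G D (cu δ φ' v) (T x)) ≤ 2 * (H (v - κ) - H (v + κ)) := by
    rintro v ⟨hv1, hv2⟩
    push_cast at hv2
    have hb := between (u := v) (v := (i : ℝ) - 1) hδ hφ hφ' hτ h (κ := κ) hκτ.le hκ0
      (by linarith)
    refine (le_abs_self _).trans (G_diff_le D hψ (T x) hb.1 hb.2 (cu_anti hδ hφ' (by linarith))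
      (cu_anti hδ hφ' (by linarith)) ?_ ?_)
    · exact D.mono_A (cu_anti hδ hφ' (by linarith)) (Nat.zero_le _)
    · exact D.mono_A (cu_anti hδ hφ' (by linarith)) le_rfl
  have h7 : ∫ v in (i : ℝ)..((i + 1 : ℕ) : ℝ), (ψ (G D (cu δ φ v) (T x)) - ψ (G D (cu δ φ' v) (T x))) ≤
      ∫ v in (i : ℝ)..((i + 1 : ℕ) : ℝ), 2 * (H (v - κ) - H (v + κ)) :=
    intervalIntegral.integral_mono_on hle
      ((code_integrable hδ hφ 𝒜 (fun A => ψ (G D A (T x))) hle h𝒜).sub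
        (code_integrable hδ hφ' 𝒜 (fun A => ψ (G D A (T x))) hle h𝒜'))
      ((hm.intervalIntegrable.sub hp.intervalIntegrable).const_mul 2) hpt
  rw [intervalIntegral.integral_const_mul] at h7
  have h9 := anti_shift hHanti hH0 hHR (κ := κ) (a := (i : ℝ)) (b := ((i + 1 : ℕ) : ℝ)) hκ0
  refine h7.trans ?_
  calc 2 * ∫ v in (i : ℝ)..((i + 1 : ℕ) : ℝ), (H (v - κ) - H (v + κ)) ≤ 2 * (2 * κ * R) := by
        gcongr
    _ = 16 * Real.exp 3 * E.C * C3 E K T * τ := by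
      have e1 : Real.exp ((i : ℝ) + 2) = Real.exp ((i : ℝ) - 1) * Real.exp 3 := by
        rw [← Real.exp_add]; ring_nf
      rw [hR, e1]
      conv_rhs => rw [hκτ]
      ring

end one

/-- **The jump term.** -/
theorem jump_le {η : ℝ} (_hη : 0 < η) {m' : ℕ} (hm' : 0 < m')
    (hav : ∀ (R : ℝ) (v : ℕ → X) (a b : ℕ → ι), 0 ≤ R → NonOv (Finset.range m') a b →
      (∀ j < m', ‖v j‖ ≤ R) → (∀ j < m', E.P (b j) (v j) = v j) →
      (∀ j < m', E.P (a j) (v j) = 0) → ‖∑ j ∈ Finset.range m', v j‖ ≤ η * m' * R)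
    (hδ : 0 < δ) (hδL : δ * Real.exp ((4 * m' : ℕ) + 1) < 1) (hφ : IsC0 φ) (hφ' : IsC0 φ')
    {τ : ℝ} (hτ : 0 ≤ τ) (h : ∀ γ, |φ γ - φ' γ| ≤ τ) (hτδ : τ ≤ δ * Real.exp (-1)) {x : Y}
    (hx : ∀ γ, |K.Φ x γ - φ' γ| ≤ δ * Real.exp (-1)) :
    ‖F D δ (4 * m' : ℕ) φ (T x) - F D δ (4 * m' : ℕ) φ' (T x)‖ ≤
      η * (16 * Real.exp 3 * E.C * C3 E K T * τ) := by
  classical
  set n : ℕ := 4 * m' with hn
  have hn0 : 0 < n := by omega
  have hnR : (0 : ℝ) < n := by exact_mod_cast hn0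
  have hC := E.C0
  have hC3 := C3_pos E K T
  set 𝒜 : Finset (Cd Γ) := (cu δ φ 0).powerset ∪ (cu δ φ' 0).powerset with h𝒜d
  have h𝒜 : ∀ i : ℕ, ∀ v ∈ Icc (i : ℝ) ((i + 1 : ℕ) : ℝ), cu δ φ v ∈ 𝒜 := fun i v hv =>
    Finset.mem_union_left _ (Finset.mem_powerset.2
      (cu_anti hδ hφ ((Nat.cast_nonneg i).trans hv.1)))
  have h𝒜' : ∀ i : ℕ, ∀ v ∈ Icc (i : ℝ) ((i + 1 : ℕ) : ℝ), cu δ φ' v ∈ 𝒜 := fun i v hv =>
    Finset.mem_union_right _ (Finset.mem_powerset.2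
      (cu_anti hδ hφ' ((Nat.cast_nonneg i).trans hv.1)))
  set v : ℕ → X := fun i => vi D δ φ φ' 𝒜 i (T x) with hv
  have hdec : F D δ n φ (T x) - F D δ n φ' (T x) = (n : ℝ)⁻¹ • ∑ i ∈ Finset.range n, v i := by
    rw [F_eq D hδ hnR hφ (Finset.subset_union_left : _ ⊆ 𝒜) (T x),
      F_eq D hδ hnR hφ' (Finset.subset_union_right : _ ⊆ 𝒜) (T x), ← Finset.sum_sub_distrib]
    simp only [hv, vi]
    rw [Finset.sum_comm, Finset.smul_sum]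
    refine Finset.sum_congr rfl fun A _ => ?_
    rw [← sub_smul, wq_split hδ hφ, wq_split hδ hφ', ← mul_sub, mul_smul,
      ← Finset.sum_sub_distrib, Finset.sum_smul]
  set R : ℝ := 16 * Real.exp 3 * E.C * C3 E K T * τ with hR
  have hR0 : 0 ≤ R := by positivity
  have hvnorm : ∀ i < n, ‖v i‖ ≤ R := by
    intro i hi
    have hi' : (i : ℝ) + 1 ≤ n := by exact_mod_cast hi
    refine norm_vi_le D hδ hφ hφ' hτ h hτδ (h𝒜 i) (h𝒜' i) ?_ hx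
    exact lt_of_le_of_lt (mul_le_mul_of_nonneg_left (Real.exp_le_exp.2 (by linarith)) hδ.le) hδL
  have hsucc : ∀ i j : ℕ, i + 4 ≤ j → j < n →
      D.S D.m (cu δ φ' (j - 1)) ≤ D.S 0 (cu δ φ' (i + 2)) := by
    intro i j hij hj
    have hijR : (i : ℝ) + 4 ≤ j := by exact_mod_cast hij
    have hjR : (j : ℝ) + 1 ≤ n := by exact_mod_cast hj
    refine D.strict _ _ (code_strict hφ' (by positivity) ?_ ?_)
    · have h3 : Real.exp (i + 3) ≤ Real.exp (j - 1) := Real.exp_le_exp.2 (by linarith)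
      have h4 : Real.exp ((i : ℝ) + 3) = Real.exp (i + 2) * Real.exp 1 := by
        rw [← Real.exp_add]; ring_nf
      have h5 : (2 : ℝ) ≤ Real.exp 1 := by linarith [Real.exp_one_gt_d9]
      have h6 : Real.exp (i + 2) * 2 ≤ Real.exp (i + 2) * Real.exp 1 := by gcongr
      calc 2 * (δ * Real.exp (i + 2)) = δ * (Real.exp (i + 2) * 2) := by ring
        _ ≤ δ * Real.exp (j - 1) := by
          gcongr
          linarith
    · exact (lt_of_le_of_lt (mul_le_mul_of_nonneg_left (Real.exp_le_exp.2 (by linarith))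
        hδ.le) hδL).le
  have hclass : ∀ r < 4, ‖∑ q ∈ Finset.range m', v (4 * q + r)‖ ≤ η * m' * R := by
    intro r hr
    refine hav R (fun q => v (4 * q + r))
      (fun q => D.S 0 (cu δ φ' ((4 * q + r : ℕ) + 2)))
      (fun q => D.S D.m (cu δ φ' ((4 * q + r : ℕ) - 1))) hR0 ⟨fun q _ => ?_, ?_⟩
      (fun q hq => hvnorm _ (by omega))
      (fun q _ => P_top_vi D hδ hφ hφ' hτ h hτδ (T x))
      (fun q _ => P_bot_vi D hδ hφ hφ' hτ h hτδ (h𝒜 _) (h𝒜' _) (T x))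
    · exact (D.mono_A (cu_anti hδ hφ' (by linarith)) (Nat.zero_le _)).trans
        (D.mono_j _ (Nat.zero_le _))
    · intro a ha b hb hab
      have ha' := Finset.mem_range.1 ha
      have hb' := Finset.mem_range.1 hb
      rcases lt_or_gt_of_ne hab with h1 | h1
      · exact Or.inr (hsucc _ _ (by omega) (by omega))
      · exact Or.inl (hsucc _ _ (by omega) (by omega))
  rw [hdec, norm_smul, Real.norm_eq_abs, abs_of_pos (inv_pos.2 hnR), inv_mul_le_iff₀ hnR]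
  have hsum : ∑ i ∈ Finset.range n, v i =
      ∑ r ∈ Finset.range 4, ∑ q ∈ Finset.range m', v (4 * q + r) := sum_range_four v m'
  rw [hsum]
  calc ‖∑ r ∈ Finset.range 4, ∑ q ∈ Finset.range m', v (4 * q + r)‖
      ≤ ∑ _r ∈ Finset.range 4, η * m' * R :=
        norm_sum_le_of_le _ fun r hr => hclass r (Finset.mem_range.1 hr)
    _ = n * (η * R) := by
        rw [Finset.sum_const, Finset.card_range, nsmul_eq_mul, hn]
        push_cast; ring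

theorem F_map_sub (δ L : ℝ) (φ : Γ → ℝ) (x y : X) :
    F D δ L φ (x - y) = F D δ L φ x - F D δ L φ y := by
  unfold F
  rw [← Finset.sum_sub_distrib]
  exact Finset.sum_congr rfl fun A _ => by rw [map_sub, smul_sub]

/-- The Lipschitz estimate for a fixed perturbation. -/
theorem F_lip {η : ℝ} (hη : 0 < η) {m' : ℕ} (hm' : 0 < m')
    (hav : ∀ (R : ℝ) (v : ℕ → X) (a b : ℕ → ι), 0 ≤ R → NonOv (Finset.range m') a b →
      (∀ j < m', ‖v j‖ ≤ R) → (∀ j < m', E.P (b j) (v j) = v j) →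
      (∀ j < m', E.P (a j) (v j) = 0) → ‖∑ j ∈ Finset.range m', v j‖ ≤ η * m' * R)
    (hM : 0 < M) (hp : ∀ x, p x ≤ M * ‖x‖)
    (hδ : 0 < δ) (hδL : δ * Real.exp ((4 * m' : ℕ) + 1) < 1) (hφ : IsC0 φ) (hφ' : IsC0 φ')
    {τ : ℝ} (hτ : 0 ≤ τ) (h : ∀ γ, |φ γ - φ' γ| ≤ τ) (hτδ : τ ≤ δ * Real.exp (-1)) {x y : Y}
    (hy : ∀ γ, |K.Φ y γ - φ' γ| ≤ δ * Real.exp (-1)) :
    p (F D δ (4 * m' : ℕ) φ (T x) - F D δ (4 * m' : ℕ) φ' (T y)) ≤
      (1 + ε) * p (T x - T y) + M * (η * (16 * Real.exp 3 * E.C * C3 E K T * τ)) := by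
  have hL : (0 : ℝ) < (4 * m' : ℕ) := by exact_mod_cast (by omega : 0 < 4 * m')
  have h1 : F D δ (4 * m' : ℕ) φ (T x) - F D δ (4 * m' : ℕ) φ' (T y) =
      F D δ (4 * m' : ℕ) φ (T x - T y) +
        (F D δ (4 * m' : ℕ) φ (T y) - F D δ (4 * m' : ℕ) φ' (T y)) := by
    rw [F_map_sub]; abel
  rw [h1]
  refine (map_add_le_add p _ _).trans (add_le_add (p_F_le D hδ hL hφ _) ((hp _).trans ?_))
  exact mul_le_mul_of_nonneg_left (jump_le D hη hm' hav hδ hδL hφ hφ' hτ h hτδ hy) hM.le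

end Pool.Agent.Helper94.SR
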