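import Pool.Agent.Helper94.SR.Code

/-! Smoothing on the range of a projection. -/

open scoped ContDiff
open Set Filter Topology MeasureTheory

namespace Pool.Agent.Helper94.SR

open Pool.Agent.Helper94.UF

set_option linter.unusedSectionVars false
set_option linter.style.haveILetI false

variable {X : Type*} [NormedAddCommGroup X] [NormedSpace ℝ X] {ι : Type*} [Preorder ι]
variable {p : Seminorm ℝ X} {M : ℝ}

/-- The ranges have property `(*^k)` with the constant `Cr` for every equivalent norm. -/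
def RangeStar (k : WithTop ℕ∞) (P : ι → X →L[ℝ] X) (Cr : ℝ) : Prop :=
  ∀ (s : ι) (q : Seminorm ℝ (LinearMap.range (P s : X →ₗ[ℝ] X))) (M : ℝ), 0 < M →
    (∀ w, q w ≤ M * ‖w‖) → (∀ w, ‖w‖ ≤ M * q w) →
    ∀ (f : LinearMap.range (P s : X →ₗ[ℝ] X) → ℝ) (Λ : ℝ), 0 ≤ Λ →
    (∀ x y, |f x - f y| ≤ Λ * q (x - y)) → ∀ ε : ℝ, 0 < ε →
    ∃ K : LinearMap.range (P s : X →ₗ[ℝ] X) → ℝ, ContDiff ℝ k K ∧
      (∀ x y, |K x - K y| ≤ Cr * Λ * q (x - y)) ∧ ∀ x, |f x - K x| < ε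

/-- Smooth approximation on a range. -/
theorem moll {k : WithTop ℕ∞} (E : SPS X ι) {Cr : ℝ} (hR : RangeStar k E.P Cr) (hM : 0 < M)
    (hp : ∀ x, p x ≤ M * ‖x‖) (hq : ∀ x, ‖x‖ ≤ M * p x) {f : X → ℝ} {Λ : ℝ}
    (hΛ : 0 ≤ Λ) (hf : ∀ x y, |f x - f y| ≤ Λ * p (x - y)) (S : ι) {κ : ℝ} (hκ : 0 < κ) :
    ∃ g : X → ℝ, ContDiff ℝ k g ∧ (∀ y y', |g y - g y'| ≤ Cr * Λ * p (E.P S y - E.P S y')) ∧
      ∀ y, |g y - f (E.P S y)| ≤ κ := by
  set W := LinearMap.range (E.P S : X →ₗ[ℝ] X) with hW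
  let q : Seminorm ℝ W := p.comp W.subtype
  have hqa : ∀ w : W, q w = p (w : X) := fun w => rfl
  obtain ⟨K, hK1, hK2, hK3⟩ := hR S q M hM (fun w => hp w) (fun w => hq w)
    (fun w => f (w : X)) Λ hΛ (fun x y => hf x y) κ hκ
  let R : X →L[ℝ] W := (E.P S).codRestrict W fun x => ⟨x, rfl⟩
  have hRa : ∀ x, ((R x : W) : X) = E.P S x := fun x => rfl
  refine ⟨fun x => K (R x), hK1.comp R.contDiff, fun y y' => ?_, fun y => ?_⟩
  · exact hK2 (R y) (R y')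
  · rw [abs_sub_comm]
    exact (hK3 (R y)).le

end Pool.Agent.Helper94.SR
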