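import Pool.Agent.Helper94.SR.Defs

/-! Averages of nested projections are almost contractive for a given equivalent norm. -/

open Set Filter Topology

namespace Pool.Agent.Helper94.SR

open Pool.Agent.Helper94.UF (seminorm_sum_le)

set_option linter.unusedSectionVars false

variable {X : Type*} [NormedAddCommGroup X] [NormedSpace ℝ X] {ι : Type*} [Preorder ι]
  [IsDirectedOrder ι] [Nonempty ι] (E : SPS X ι)
variable {p : Seminorm ℝ X} {M : ℝ}

/-- First step: room for a correction. -/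
theorem lemA (hM : 0 < M) (hp : ∀ x, p x ≤ M * ‖x‖) (hq : ∀ x, ‖x‖ ≤ M * p x)
    (B : ι) {ε : ℝ} (hε : 0 < ε) :
    ∃ B' : ι, B ≤ B' ∧ ∀ x : X, ∃ u : X,
      E.P B' u = u ∧ E.P B u = 0 ∧ ‖u‖ ≤ 2 * E.C * M * p x ∧
        p (E.P B x + u) ≤ (1 + ε) * p x := by
  classical
  have hC := E.C0
  set η : ℝ := ε / (2 * M) with hη
  have hη0 : 0 < η := by positivity
  set T : Set X := {x | p x ≤ 1} with hT
  obtain ⟨B', hsubB, hnear⟩ := E.near B T η hη0
  refine ⟨B', hsubB, fun x => ?_⟩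
  by_cases hx0 : p x = 0
  · refine ⟨0, by simp, by simp, by simp [hx0], ?_⟩
    have h1 : ‖x‖ ≤ 0 := by have := hq x; rw [hx0, mul_zero] at this; exact this
    have h2 : x = 0 := norm_le_zero_iff.1 h1
    rw [h2]; simp
  · have hxpos : 0 < p x := lt_of_le_of_ne (apply_nonneg p x) (Ne.symm hx0)
    set c : ℝ := (p x)⁻¹ with hc
    have hcpos : 0 < c := inv_pos.2 hxpos
    have hcx : c • x ∈ T := by
      simp only [hT, mem_ofPred_eq, map_smul_eq_mul, Real.norm_eq_abs, abs_of_pos hcpos]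
      rw [hc, inv_mul_cancel₀ hx0]
    obtain ⟨g, hg, hxg, hgB⟩ := hnear (c • x) hcx
    have hgy : p g ≤ 1 := hg
    have hgn : ‖g‖ ≤ M := by
      calc ‖g‖ ≤ M * p g := hq _
        _ ≤ M * 1 := by gcongr
        _ = M := mul_one M
    refine ⟨p x • (E.P B' g - E.P B g), ?_, ?_, ?_, ?_⟩
    · rw [map_smul, map_sub, E.PP _ _ le_rfl, E.PP' _ _ hsubB]
    · rw [map_smul, map_sub, E.PP _ _ hsubB, E.PP _ _ le_rfl, sub_self, smul_zero]
    · rw [norm_smul, Real.norm_eq_abs, abs_of_pos hxpos, mul_comm]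
      refine mul_le_mul_of_nonneg_right ?_ hxpos.le
      calc ‖E.P B' g - E.P B g‖ ≤ ‖E.P B' g‖ + ‖E.P B g‖ := norm_sub_le _ _
        _ ≤ E.C * ‖g‖ + E.C * ‖g‖ := add_le_add (E.bdd _ _) (E.bdd _ _)
        _ ≤ E.C * M + E.C * M := by gcongr
        _ = 2 * E.C * M := by ring
    · have hdec : E.P B x + p x • (E.P B' g - E.P B g) =
          p x • ((E.P B (c • x) - E.P B g) + (E.P B' g - g) + g) := by
        have hpc : p x * c = 1 := mul_inv_cancel₀ hx0
        rw [map_smul (E.P B)]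
        simp only [smul_add, smul_sub, smul_smul, hpc, one_smul]
        abel
      rw [hdec, map_smul_eq_mul, Real.norm_eq_abs, abs_of_pos hxpos, mul_comm]
      refine mul_le_mul_of_nonneg_right ?_ hxpos.le
      have h1 : p (E.P B (c • x) - E.P B g) ≤ M * η :=
        (hp _).trans (mul_le_mul_of_nonneg_left hxg hM.le)
      have h2 : p (E.P B' g - g) ≤ M * η := by
        refine (hp _).trans (mul_le_mul_of_nonneg_left ?_ hM.le)
        rw [norm_sub_rev]
        exact hgB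
      have h3 : M * η = ε / 2 := by rw [hη]; field_simp
      calc p ((E.P B (c • x) - E.P B g) + (E.P B' g - g) + g)
          ≤ p ((E.P B (c • x) - E.P B g) + (E.P B' g - g)) + p g := map_add_le_add p _ _
        _ ≤ (p (E.P B (c • x) - E.P B g) + p (E.P B' g - g)) + p g := by
            gcongr; exact map_add_le_add p _ _
        _ ≤ (M * η + M * η) + 1 := by gcongr
        _ = 1 + ε := by rw [h3]; ring

/-- An average of `m` nested projections is an almost contraction. -/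
theorem lemB (hM : 0 < M) (hp : ∀ x, p x ≤ M * ‖x‖) (hq : ∀ x, ‖x‖ ≤ M * p x)
    {ε : ℝ} (hε : 0 < ε) :
    ∃ (N : ι → ι) (m : ℕ), 0 < m ∧ (∀ B, B ≤ N B) ∧
      ∀ (B : ι) (x : X),
        p ((m : ℝ)⁻¹ • ∑ j ∈ Finset.range m, E.P (N^[j] B) x) ≤ (1 + ε) * p x := by
  have hC := E.C0
  set ε' : ℝ := ε / 2 with hε'
  have hε'0 : 0 < ε' := by positivity
  choose N hN1 hN2 using fun B : ι => lemA E hM hp hq B hε'0
  set η : ℝ := ε / (2 * (M * (2 * E.C * M))) with hη
  have hη0 : 0 < η := by positivity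
  obtain ⟨m, hm, hmavg⟩ := E.exists_avg hη0
  refine ⟨N, m, hm, hN1, fun B x => ?_⟩
  have hm0 : (0 : ℝ) < m := by exact_mod_cast hm
  have hmono : Monotone fun j => N^[j] B := monotone_nat_of_le_succ fun j => by
    rw [Function.iterate_succ_apply']
    exact hN1 _
  choose u hu1 hu0 hu2 hu3 using fun j : ℕ => hN2 (N^[j] B) x
  have hpx := apply_nonneg p x
  have hdisj : NonOv (Finset.range m) (fun j => N^[j] B) (fun j => N (N^[j] B)) := by
    refine ⟨fun l _ => hN1 _, fun l _ l' _ hne => ?_⟩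
    have key : ∀ i j, i < j → N (N^[i] B) ≤ N^[j] B := by
      intro i j hij
      rw [← Function.iterate_succ_apply' N i B]
      exact hmono (Nat.succ_le_of_lt hij)
    rcases lt_or_gt_of_ne hne with h | h
    · exact Or.inl (key _ _ h)
    · exact Or.inr (key _ _ h)
  have hsum := hmavg (2 * E.C * M * p x) u _ _ (by positivity) hdisj
    (fun j _ => hu2 j) (fun j _ => hu1 j) (fun j _ => hu0 j)
  have hdec : (m : ℝ)⁻¹ • ∑ j ∈ Finset.range m, E.P (N^[j] B) x =
      (m : ℝ)⁻¹ • (∑ j ∈ Finset.range m, (E.P (N^[j] B) x + u j)) -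
        (m : ℝ)⁻¹ • ∑ j ∈ Finset.range m, u j := by
    rw [Finset.sum_add_distrib, smul_add, add_sub_cancel_right]
  rw [hdec]
  have hminv : |(m : ℝ)⁻¹| = (m : ℝ)⁻¹ := abs_of_pos (inv_pos.2 hm0)
  calc p ((m : ℝ)⁻¹ • (∑ j ∈ Finset.range m, (E.P (N^[j] B) x + u j)) -
        (m : ℝ)⁻¹ • ∑ j ∈ Finset.range m, u j)
      ≤ p ((m : ℝ)⁻¹ • (∑ j ∈ Finset.range m, (E.P (N^[j] B) x + u j))) +
        p ((m : ℝ)⁻¹ • ∑ j ∈ Finset.range m, u j) := map_sub_le_add p _ _
    _ = (m : ℝ)⁻¹ * p (∑ j ∈ Finset.range m, (E.P (N^[j] B) x + u j)) +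
        (m : ℝ)⁻¹ * p (∑ j ∈ Finset.range m, u j) := by
        rw [map_smul_eq_mul, map_smul_eq_mul, Real.norm_eq_abs, hminv]
    _ ≤ (m : ℝ)⁻¹ * (∑ _j ∈ Finset.range m, (1 + ε') * p x) +
        (m : ℝ)⁻¹ * (M * (η * m * (2 * E.C * M * p x))) := by
        gcongr
        · exact (seminorm_sum_le p _ _).trans (Finset.sum_le_sum fun j _ => hu3 j)
        · exact (hp _).trans (by gcongr)
    _ = (1 + ε') * p x + (η * (M * (2 * E.C * M))) * p x := by
        rw [Finset.sum_const, Finset.card_range, nsmul_eq_mul]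
        field_simp
    _ = (1 + ε) * p x := by
        rw [hη, hε']
        field_simp
        ring

end Pool.Agent.Helper94.SR
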